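import Pool.Agent.Y683.RL.Kd

/-!
Job FJ of project RL (MP_f1d0b6_nt, owner helper813): Fourier-Jacobi expansion with holomorphic
parameters.
-/

set_option autoImplicit false

open Complex Filter Topology Set MeasureTheory
open Pool.Agent.Y813.RL

namespace Pool.Agent.Y683.RL

/-- coefficients with negative index of bounded functions vanish -/
theorem fco_neg {β : ℝ} {f : ℂ → ℂ} (hf : HP β f) {M : ℝ} (hM : ∀ ω : ℂ, β + 1 ≤ ω.im → ‖f ω‖ ≤ M)
    (n : ℤ) (hn : n < 0) : fco β f n = 0 := by
  have hpi := Real.pi_pos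
  have hn' : (n : ℝ) < 0 := by exact_mod_cast hn
  have hb : ∀ y : ℝ, β + 1 ≤ y → ‖fco β f n‖ ≤ M * Real.exp (2 * Real.pi * n * y) := by
    intro y hy
    rw [hf.fco_eq n (w := (y : ℂ) * Complex.I) (by simp; linarith)]
    have h1 : ∀ x ∈ Set.uIoc (0 : ℝ) 1, ‖f ((x : ℂ) + (y : ℂ) * Complex.I) *
        ee (-(n * ((x : ℂ) + (y : ℂ) * Complex.I)))‖ ≤ M * Real.exp (2 * Real.pi * n * y) := by
      intro x hx
      rw [norm_mul, ee_norm]
      have e : -(2 * Real.pi * (-((n : ℂ) * ((x : ℂ) + (y : ℂ) * Complex.I))).im) =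
          2 * Real.pi * n * y := by
        simp
        ring
      rw [e]
      exact mul_le_mul_of_nonneg_right (hM _ (by simpa using hy)) (Real.exp_pos _).le
    have h2 := intervalIntegral.norm_integral_le_of_norm_le_const h1
    simpa using h2
  have hlim : Tendsto (fun y : ℝ => M * Real.exp (2 * Real.pi * n * y)) atTop (𝓝 0) := by
    have h5 : Tendsto (fun y : ℝ => 2 * Real.pi * n * y) atTop atBot :=
      tendsto_id.const_mul_atTop_of_neg (by nlinarith)
    have h6 := (Real.tendsto_exp_atBot.comp h5).const_mul M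
    rw [mul_zero] at h6
    exact h6
  have h7 : ‖fco β f n‖ ≤ 0 := by
    refine ge_of_tendsto hlim ?_
    filter_upwards [eventually_ge_atTop (β + 1)] with y hy
    exact hb y hy
  exact norm_le_zero_iff.1 h7

theorem jobFJ : JobFJ := by
  intro E _ _ _ P b F hP hb hF hper hbd
  have hHP : ∀ p ∈ P, HP (b p) (fun ω => F (ω, p)) := by
    intro p hp
    refine ⟨?_, fun t ht => hper t p hp ht⟩
    refine hF.comp (f := fun t : ℂ => (t, p)) (by fun_prop) fun t ht => ?_
    exact ⟨hp, ht⟩
  have hfj : ∀ (j : ℕ) (p : E), fj b F j p = fco (b p) (fun ω => F (ω, p)) (j : ℤ) := by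
    intro j p
    unfold fj fco
    simp only [Int.cast_natCast]
  refine ⟨?_, ?_, ?_, ?_⟩
  · intro j
    have h1 := fco_holo hP hb hF hper (j : ℤ)
    refine h1.congr fun p _ => hfj j p
  · intro j p v hp hv
    rw [hfj, (hHP p hp).fco_eq (j : ℤ) (w := (v : ℂ) * Complex.I) (by simpa using hv)]
    simp only [Int.cast_natCast]
  · intro p ω hp hω
    obtain ⟨M, hM⟩ := hbd p hp
    obtain ⟨-, h2⟩ := (hHP p hp).hasSum (t := ω) hω
    have h3 : HasSum (fun n : ℕ => fco (b p) (fun ω => F (ω, p)) (n : ℤ) *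
        ee (((n : ℤ) : ℂ) * ω)) (F (ω, p)) := by
      refine (Function.Injective.hasSum_iff (g := fun n : ℕ => (n : ℤ)) Nat.cast_injective ?_).2 h2
      intro n hn
      have : n < 0 := by
        by_contra hcon
        push Not at hcon
        exact hn ⟨n.toNat, Int.toNat_of_nonneg hcon⟩
      rw [fco_neg (hHP p hp) hM n this, zero_mul]
    have e : (fun j : ℕ => fj b F j p * ee (j * ω)) = fun n : ℕ =>
        fco (b p) (fun ω => F (ω, p)) (n : ℤ) * ee (((n : ℤ) : ℂ) * ω) := by
      funext n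
      rw [hfj, Int.cast_natCast]
    rw [e]
    exact h3
  · intro p p' κ c hp hp' h j
    rw [hfj, hfj, fco_trans (hHP p hp) (hHP p' hp') h, Int.cast_natCast]

end Pool.Agent.Y683.RL
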