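import Pool.Agent.Y813.RL.Stm
import Pool.Agent.Y813.RL.HI

/-!
Project RL (MP_f1d0b6_nt, owner helper813): Fourier expansions of periodic holomorphic functions on
half planes.
-/

set_option autoImplicit false

open Complex Filter Topology Set MeasureTheory
open Pool.Agent.Y813.RL

namespace Pool.Agent.Y683.RL

lemma ee_add (x y : ℂ) : ee (x + y) = ee x * ee y := by
  unfold ee
  rw [← Complex.exp_add]
  congr 1
  ring

lemma ee_zero : ee 0 = 1 := by
  unfold ee
  rw [mul_zero, Complex.exp_zero]

lemma ee_neg_mul (x : ℂ) : ee (-x) * ee x = 1 := by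
  rw [← ee_add, neg_add_cancel, ee_zero]

lemma ee_norm (x : ℂ) : ‖ee x‖ = Real.exp (-(2 * Real.pi * x.im)) := by
  unfold ee
  rw [Complex.norm_exp]
  congr 1
  simp

lemma ee_int (n : ℤ) : ee n = 1 := by
  unfold ee
  rw [show 2 * (Real.pi : ℂ) * Complex.I * n = n * (2 * Real.pi * Complex.I) by ring]
  exact Complex.exp_int_mul_two_pi_mul_I n

lemma ee_ne (x : ℂ) : ee x ≠ 0 := by
  unfold ee
  exact Complex.exp_ne_zero _

@[fun_prop]
lemma ee_diff : Differentiable ℂ ee := by
  unfold ee
  fun_prop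

@[fun_prop]
lemma ee_cont : Continuous ee := ee_diff.continuous

/-- holomorphic and `1`-periodic on the half plane `Im t > β` -/
structure HP (β : ℝ) (f : ℂ → ℂ) : Prop where
  holo : DifferentiableOn ℂ f {t | β < t.im}
  per : ∀ t : ℂ, β < t.im → f (t + 1) = f t

variable {β : ℝ} {f : ℂ → ℂ}

lemma hp_open (β : ℝ) : IsOpen {t : ℂ | β < t.im} := isOpen_lt continuous_const Complex.continuous_im

lemma HP.cont_line (hf : HP β f) {w : ℂ} (hw : β < w.im) :
    Continuous (fun x : ℝ => f ((x : ℂ) + w)) := by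
  rw [← continuousOn_univ]
  refine hf.holo.continuousOn.comp (by fun_prop) fun x _ => ?_
  show β < ((x : ℂ) + w).im
  simpa using hw

/-- shift of the contour -/
theorem HP.shift (hf : HP β f) {w w' : ℂ} (hw : β < w.im) (hw' : β < w'.im) :
    ∫ x in (0 : ℝ)..1, f ((x : ℂ) + w) = ∫ x in (0 : ℝ)..1, f ((x : ℂ) + w') := by
  -- horizontal shift
  have hor : ∀ w : ℂ, β < w.im → ∫ x in (0 : ℝ)..1, f ((x : ℂ) + w) =
      ∫ x in (0 : ℝ)..1, f ((x : ℂ) + (w.im : ℂ) * Complex.I) := by
    intro w hw
    set g : ℝ → ℂ := fun x => f ((x : ℂ) + (w.im : ℂ) * Complex.I) with hg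
    have hgp : Function.Periodic g 1 := by
      intro x
      simp only [hg]
      rw [← hf.per ((x : ℂ) + (w.im : ℂ) * Complex.I) (by simpa using hw)]
      congr 1
      push_cast
      ring
    have e1 : ∀ x : ℝ, f ((x : ℂ) + w) = g (x + w.re) := by
      intro x
      simp only [hg]
      congr 1
      push_cast
      conv_lhs => rw [← Complex.re_add_im w]
      ring
    simp only [e1]
    rw [intervalIntegral.integral_comp_add_right (fun x => g x) w.re]
    have h2 := hgp.intervalIntegral_add_eq w.re 0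
    rw [zero_add] at h2 ⊢
    rw [add_comm 1 w.re]
    exact h2
  rw [hor w hw, hor w' hw']
  -- vertical shift
  have h1 := Complex.integral_boundary_rect_eq_zero_of_differentiableOn f
    ((w.im : ℂ) * Complex.I) (1 + (w'.im : ℂ) * Complex.I) (hf.holo.mono (by
      intro z hz
      have h2 := (Complex.mem_reProdIm.1 hz).2
      simp at h2
      show β < z.im
      rcases le_total w.im w'.im with h | h
      · rw [Set.uIcc_of_le h] at h2
        linarith [h2.1]
      · rw [Set.uIcc_of_ge h] at h2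
        linarith [h2.1]))
  simp at h1
  have h2 : ∀ y ∈ Set.uIcc w.im w'.im, f (1 + (y : ℂ) * Complex.I) = f ((y : ℂ) * Complex.I) := by
    intro y hy
    have hy' : β < y := by
      rcases le_total w.im w'.im with h | h
      · rw [Set.uIcc_of_le h] at hy
        linarith [hy.1]
      · rw [Set.uIcc_of_ge h] at hy
        linarith [hy.1]
    rw [add_comm, hf.per _ (by simpa using hy')]
  rw [intervalIntegral.integral_congr (g := fun y : ℝ => f ((y : ℂ) * Complex.I)) h2] at h1
  linear_combination h1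

/-- the `n`-th Fourier coefficient -/
noncomputable def fco (β : ℝ) (f : ℂ → ℂ) (n : ℤ) : ℂ :=
  ∫ x in (0 : ℝ)..1, f ((x : ℂ) + ((β + 1 : ℝ) : ℂ) * Complex.I) *
    ee (-(n * ((x : ℂ) + ((β + 1 : ℝ) : ℂ) * Complex.I)))

lemma HP.mul_ee (hf : HP β f) (n : ℤ) : HP β (fun t => f t * ee (-(n * t))) where
  holo := hf.holo.mul (by fun_prop)
  per t ht := by
    rw [hf.per t ht]
    congr 1
    rw [show -((n : ℂ) * (t + 1)) = -(n * t) + ((-n : ℤ) : ℂ) by push_cast; ring, ee_add, ee_int,
      mul_one]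

theorem HP.fco_eq (hf : HP β f) (n : ℤ) {w : ℂ} (hw : β < w.im) :
    fco β f n = ∫ x in (0 : ℝ)..1, f ((x : ℂ) + w) * ee (-(n * ((x : ℂ) + w))) := by
  unfold fco
  exact (hf.mul_ee n).shift (w := ((β + 1 : ℝ) : ℂ) * Complex.I) (w' := w) (by simp) hw

/-- bound for the Fourier coefficients -/
theorem HP.fco_bound (hf : HP β f) {y : ℝ} (hy : β < y) : ∃ C : ℝ, 0 ≤ C ∧
    ∀ n : ℤ, ‖fco β f n‖ ≤ C * Real.exp (2 * Real.pi * n * y) := by
  have hc := hf.cont_line (w := (y : ℂ) * Complex.I) (by simpa using hy)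
  obtain ⟨C, hC⟩ := (isCompact_Icc (a := (0 : ℝ)) (b := 1)).exists_bound_of_continuousOn
    hc.continuousOn
  have hC0 : 0 ≤ C := (norm_nonneg _).trans (hC 0 (by simp))
  refine ⟨C, hC0, fun n => ?_⟩
  rw [hf.fco_eq n (w := (y : ℂ) * Complex.I) (by simpa using hy)]
  have h1 : ∀ x ∈ Set.uIoc (0 : ℝ) 1, ‖f ((x : ℂ) + (y : ℂ) * Complex.I) *
      ee (-(n * ((x : ℂ) + (y : ℂ) * Complex.I)))‖ ≤ C * Real.exp (2 * Real.pi * n * y) := by
    intro x hx
    rw [Set.uIoc_of_le zero_le_one] at hx
    rw [norm_mul, ee_norm]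
    have h2 := hC x ⟨hx.1.le, hx.2⟩
    have e : -(2 * Real.pi * (-((n : ℂ) * ((x : ℂ) + (y : ℂ) * Complex.I))).im) =
        2 * Real.pi * n * y := by
      simp
      ring
    rw [e]
    exact mul_le_mul_of_nonneg_right h2 (Real.exp_pos _).le
  have h2 := intervalIntegral.norm_integral_le_of_norm_le_const h1
  simpa using h2

/-- Fourier expansion -/
theorem HP.hasSum (hf : HP β f) {t : ℂ} (ht : β < t.im) :
    Summable (fun n : ℤ => ‖fco β f n * ee (n * t)‖) ∧
    HasSum (fun n : ℤ => fco β f n * ee (n * t)) (f t) := by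
  set y := t.im with hy
  set g : ℝ → ℂ := fun x => f ((x : ℂ) + (y : ℂ) * Complex.I) with hg
  have hgp : Function.Periodic g 1 := by
    intro x
    simp only [hg]
    rw [← hf.per ((x : ℂ) + (y : ℂ) * Complex.I) (by simpa using ht)]
    congr 1
    push_cast
    ring
  have hgc : Continuous g := hf.cont_line (w := (y : ℂ) * Complex.I) (by simpa using ht)
  let F : C(UnitAddCircle, ℂ) := ⟨hgp.lift, continuous_coinduced_dom.mpr hgc⟩
  have hcoef : ∀ n : ℤ, fourierCoeff F n = fco β f n * ee (n * ((y : ℂ) * Complex.I)) := by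
    intro n
    rw [fourierCoeff_eq_intervalIntegral _ n 0, hf.fco_eq n (w := (y : ℂ) * Complex.I)
      (by simpa using ht), ← intervalIntegral.integral_mul_const]
    simp only [zero_add, div_one, one_smul]
    refine intervalIntegral.integral_congr fun x _ => ?_
    simp only [fourier_coe_apply, smul_eq_mul]
    have h1 : F (x : UnitAddCircle) = f ((x : ℂ) + (y : ℂ) * Complex.I) := rfl
    rw [h1]
    have h2 : cexp (2 * Real.pi * Complex.I * ((-n : ℤ) : ℂ) * (x : ℂ) / ((1 : ℝ) : ℂ)) =
        ee (-(n * ((x : ℂ) + (y : ℂ) * Complex.I))) * ee (n * ((y : ℂ) * Complex.I)) := by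
      rw [← ee_add]
      unfold ee
      congr 1
      push_cast
      ring
    rw [h2]
    ring
  -- summability
  obtain ⟨C1, hC1, h1⟩ := hf.fco_bound (y := (β + y) / 2) (by linarith)
  obtain ⟨C2, hC2, h2⟩ := hf.fco_bound (y := y + 1) (by linarith)
  have hsum : Summable (fun n : ℤ => ‖fco β f n * ee (n * t)‖) := by
    have hn : ∀ n : ℤ, ‖fco β f n * ee (n * t)‖ = ‖fco β f n‖ * Real.exp (-(2 * Real.pi * n * y)) := by
      intro n
      rw [norm_mul, ee_norm]
      congr 2
      simp [hy]
      ring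
    have hpi := Real.pi_pos
    refine Summable.of_nat_of_neg_add_one ?_ ?_
    · -- nonnegative part
      have hr : 0 < Real.pi * (y - β) := mul_pos hpi (by linarith)
      have hg : Summable (fun n : ℕ => C1 * Real.exp (-(Real.pi * (y - β))) ^ n) :=
        (summable_geometric_of_lt_one (Real.exp_pos _).le
          (Real.exp_lt_one_iff.2 (by linarith))).mul_left _
      refine Summable.of_nonneg_of_le (fun n => norm_nonneg _) (fun n => ?_) hg
      rw [hn]
      calc ‖fco β f (n : ℤ)‖ * Real.exp (-(2 * Real.pi * ((n : ℤ) : ℝ) * y)) ≤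
            (C1 * Real.exp (2 * Real.pi * ((n : ℤ) : ℝ) * ((β + y) / 2))) *
              Real.exp (-(2 * Real.pi * ((n : ℤ) : ℝ) * y)) :=
            mul_le_mul_of_nonneg_right (h1 _) (Real.exp_pos _).le
        _ = _ := by
            rw [mul_assoc, ← Real.exp_add, ← Real.exp_nat_mul]
            congr 2
            push_cast
            ring
    · have hg : Summable (fun n : ℕ => C2 * Real.exp (-(2 * Real.pi)) *
          Real.exp (-(2 * Real.pi)) ^ n) :=
        (summable_geometric_of_lt_one (Real.exp_pos _).le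
          (Real.exp_lt_one_iff.2 (by linarith))).mul_left _
      refine Summable.of_nonneg_of_le (fun n => norm_nonneg _) (fun n => ?_) hg
      rw [hn]
      calc ‖fco β f (-((n : ℤ) + 1))‖ * Real.exp (-(2 * Real.pi * ((-((n : ℤ) + 1) : ℤ) : ℝ) * y)) ≤
            (C2 * Real.exp (2 * Real.pi * ((-((n : ℤ) + 1) : ℤ) : ℝ) * (y + 1))) *
              Real.exp (-(2 * Real.pi * ((-((n : ℤ) + 1) : ℤ) : ℝ) * y)) :=
            mul_le_mul_of_nonneg_right (h2 _) (Real.exp_pos _).le
        _ = _ := by
            have e1 : C2 * Real.exp (-(2 * Real.pi)) * Real.exp (-(2 * Real.pi)) ^ n =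
                C2 * (Real.exp (-(2 * Real.pi)) * Real.exp (n * (-(2 * Real.pi)))) := by
              rw [← Real.exp_nat_mul]
              ring
            rw [e1, mul_assoc, ← Real.exp_add, ← Real.exp_add]
            congr 2
            push_cast
            ring
  refine ⟨hsum, ?_⟩
  have hsF : Summable (fourierCoeff F) := by
    refine Summable.of_norm ?_
    refine hsum.congr fun n => ?_
    rw [hcoef, norm_mul, norm_mul, ee_norm, ee_norm]
    congr 3
    simp [hy]
  have h3 := has_pointwise_sum_fourier_series_of_summable hsF (t.re : UnitAddCircle)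
  have h4 : F (t.re : UnitAddCircle) = f t := by
    show f ((t.re : ℂ) + (y : ℂ) * Complex.I) = f t
    rw [hy, Complex.re_add_im]
  rw [h4] at h3
  have h5 : (fun n : ℤ => fourierCoeff F n • fourier n (t.re : UnitAddCircle)) =
      fun n : ℤ => fco β f n * ee (n * t) := by
    funext n
    rw [hcoef, fourier_coe_apply, smul_eq_mul, mul_assoc]
    congr 1
    have h2 : cexp (2 * Real.pi * Complex.I * (n : ℂ) * (t.re : ℂ) / ((1 : ℝ) : ℂ)) =
        ee (n * (t.re : ℂ)) := by
      unfold ee
      congr 1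
      push_cast
      ring
    rw [h2, ← ee_add]
    congr 1
    conv_rhs => rw [← Complex.re_add_im t]
    rw [hy]
    ring
  rw [h5] at h3
  exact h3

end Pool.Agent.Y683.RL
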