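import Pool.Agent.Y683.RL.Theta1

/-!
Project RL (MP_f1d0b6_nt, owner helper813): Gaussian integrals and unfolding.
-/

set_option autoImplicit false

open Complex Filter Topology Set MeasureTheory
open Pool.Agent.Y813.RL

namespace Pool.Agent.Y683.RL

variable {n : ℕ}

/-- unfolding -/
theorem unfold_box {F : (Fin n → ℝ) → ℂ} (hF : Integrable F) :
    HasSum (fun v : Fin n → ℤ => ∫ y in Icc (0 : Fin n → ℝ) 1, F (fun i => y i - (v i : ℝ)))
      (∫ y, F y) := by
  set s : (Fin n → ℤ) → Set (Fin n → ℝ) := fun v => {y | (fun i => ⌊y i⌋) = v} with hs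
  have hmeas : Measurable (fun y : Fin n → ℝ => fun i => ⌊y i⌋) :=
    measurable_pi_lambda _ fun i => Int.measurable_floor.comp (measurable_pi_apply i)
  have hm : ∀ v, MeasurableSet (s v) := fun v => hmeas (measurableSet_singleton v)
  have hd : Pairwise (Function.onFun Disjoint s) := by
    intro v v' hvv
    refine Set.disjoint_left.2 fun y hy hy' => hvv ?_
    exact (show (fun i => ⌊y i⌋) = v from hy).symm.trans hy'
  have hU : ⋃ v, s v = univ := by
    refine Set.eq_univ_of_forall fun y => Set.mem_iUnion.2 ⟨fun i => ⌊y i⌋, rfl⟩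
  have h1 := hasSum_integral_iUnion (μ := volume) hm hd (hF.integrableOn (s := ⋃ v, s v))
  rw [hU, setIntegral_univ] at h1
  have h2 : ∀ v : Fin n → ℤ, ∫ y in s (-v), F y =
      ∫ y in Icc (0 : Fin n → ℝ) 1, F (fun i => y i - (v i : ℝ)) := by
    intro v
    set a : Fin n → ℝ := fun i => -(v i : ℝ) with ha
    have e3 := (measurePreserving_add_right (volume : Measure (Fin n → ℝ)) a).setIntegral_preimage_emb
      (MeasurableEquiv.addRight a).measurableEmbedding F (s (-v))
    rw [← e3]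
    have e4 : (fun y : Fin n → ℝ => y + a) ⁻¹' (s (-v)) = Set.pi univ fun i =>
        Ico ((0 : Fin n → ℝ) i) ((1 : Fin n → ℝ) i) := by
      ext y
      simp only [hs, mem_preimage, Set.mem_ofPred_eq, Set.mem_univ_pi, Pi.zero_apply, Pi.one_apply]
      rw [funext_iff]
      refine forall_congr' fun i => ?_
      have e5 : ⌊(y + a) i⌋ = ⌊y i⌋ - v i := by
        rw [← Int.floor_sub_intCast]
        congr 1
      rw [e5, Pi.neg_apply, ← Int.floor_eq_zero_iff]
      constructor
      · intro h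
        linarith
      · intro h
        linarith
    rw [e4]
    refine Eq.trans (setIntegral_congr_set Measure.univ_pi_Ico_ae_eq_Icc) ?_
    rfl
  have h3 := (Equiv.hasSum_iff (Equiv.neg (Fin n → ℤ))).2 h1
  have h4 : ((fun v : Fin n → ℤ => ∫ x in s v, F x) ∘ (Equiv.neg (Fin n → ℤ))) =
      fun v : Fin n → ℤ => ∫ y in Icc (0 : Fin n → ℝ) 1, F (fun i => y i - (v i : ℝ)) := by
    funext v
    exact h2 v
  rw [h4] at h3
  exact h3

open scoped MatrixOrder in
lemma exists_root {M : Matrix (Fin n) (Fin n) ℝ} (hM : M.PosDef) :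
    ∃ B : Matrix (Fin n) (Fin n) ℝ, M = B.transpose * B := by
  obtain ⟨B, hB⟩ := CStarAlgebra.nonneg_iff_eq_star_mul_self.mp hM.posSemidef.nonneg
  exact ⟨B, by rw [hB]; rfl⟩

/-- Gaussian integrals -/
theorem gauss {M : Matrix (Fin n) (Fin n) ℝ} (hM : M.PosDef) {b : ℂ} (hb : 0 < b.re) (c : ℂ)
    (l : Fin n → ℝ) :
    Integrable (fun y : Fin n → ℝ => cexp (-b * ((y ⬝ᵥ M.mulVec y : ℝ) : ℂ) +
      c * ((l ⬝ᵥ y : ℝ) : ℂ))) ∧
    ∫ y : Fin n → ℝ, cexp (-b * ((y ⬝ᵥ M.mulVec y : ℝ) : ℂ) + c * ((l ⬝ᵥ y : ℝ) : ℂ)) =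
      (Real.pi / b) ^ (n / 2 : ℂ) / (Real.sqrt M.det : ℂ) *
        cexp (c ^ 2 * ((l ⬝ᵥ M⁻¹.mulVec l : ℝ) : ℂ) / (4 * b)) := by
  obtain ⟨B, hB⟩ := exists_root hM
  have hdet : M.det = B.det ^ 2 := by
    rw [hB, Matrix.det_mul, Matrix.det_transpose]
    ring
  have hMdet : 0 < M.det := hM.det_pos
  have hBdet : B.det ≠ 0 := by
    intro h
    rw [hdet, h] at hMdet
    simp at hMdet
  have hBu : IsUnit B.det := isUnit_iff_ne_zero.2 hBdet
  have hBtu : IsUnit B.transpose.det := by
    rw [Matrix.det_transpose]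
    exact hBu
  set l' : Fin n → ℝ := (B.transpose)⁻¹.mulVec l with hl'
  have h1 : B.transpose.mulVec l' = l := by
    rw [hl', Matrix.mulVec_mulVec, Matrix.mul_nonsing_inv _ hBtu, Matrix.one_mulVec]
  set G : (Fin n → ℝ) → ℂ := fun v => cexp (-b * ∑ i, (v i : ℂ) ^ 2 + ∑ i, (c * l' i) * v i)
    with hG
  have hGi : Integrable G := GaussianFourier.integrable_cexp_neg_mul_sum_add hb fun i => c * l' i
  have hGc : Continuous G := by
    simp only [hG]
    fun_prop
  have hkey : (fun y : Fin n → ℝ => cexp (-b * ((y ⬝ᵥ M.mulVec y : ℝ) : ℂ) +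
      c * ((l ⬝ᵥ y : ℝ) : ℂ))) = fun y => G (Matrix.toLin' B y) := by
    funext y
    simp only [hG]
    congr 2
    · congr 1
      have e1 : y ⬝ᵥ M.mulVec y = ∑ i, (B.mulVec y i) ^ 2 := by
        rw [hB, ← Matrix.mulVec_mulVec, Matrix.dotProduct_mulVec, Matrix.vecMul_transpose]
        unfold dotProduct
        exact Finset.sum_congr rfl fun i _ => by ring
      rw [e1, Matrix.toLin'_apply]
      push_cast
      rfl
    · have e1 : l ⬝ᵥ y = ∑ i, l' i * (B.mulVec y i) := by
        conv_lhs => rw [← h1]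
        rw [dotProduct_comm, Matrix.dotProduct_mulVec, Matrix.vecMul_transpose, dotProduct_comm]
        rfl
      rw [e1, Matrix.toLin'_apply]
      push_cast
      rw [Finset.mul_sum]
      exact Finset.sum_congr rfl fun i _ => by ring
  have hmap := Real.map_matrix_volume_pi_eq_smul_volume_pi (M := B) hBdet
  have hmeas : Measurable (Matrix.toLin' B : (Fin n → ℝ) → (Fin n → ℝ)) :=
    (LinearMap.continuous_of_finiteDimensional _).measurable
  have hGim : Integrable G (Measure.map (Matrix.toLin' B) volume) := by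
    rw [hmap]
    exact hGi.smul_measure ENNReal.ofReal_ne_top
  constructor
  · rw [hkey]
    exact hGim.comp_measurable hmeas
  · rw [hkey, ← integral_map hmeas.aemeasurable hGc.aestronglyMeasurable, hmap,
      integral_smul_measure]
    simp only [hG]
    rw [GaussianFourier.integral_cexp_neg_mul_sum_add hb]
    have e2 : (ENNReal.ofReal |(B.det)⁻¹|).toReal = (Real.sqrt M.det)⁻¹ := by
      rw [ENNReal.toReal_ofReal (abs_nonneg _), hdet, Real.sqrt_sq_eq_abs, abs_inv]
    rw [e2, Fintype.card_fin]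
    have e3 : (∑ i, (c * (l' i : ℂ)) ^ 2) = c ^ 2 * ((l ⬝ᵥ M⁻¹.mulVec l : ℝ) : ℂ) := by
      have e4 : l ⬝ᵥ M⁻¹.mulVec l = ∑ i, l' i ^ 2 := by
        rw [hB, Matrix.mul_inv_rev, ← Matrix.mulVec_mulVec, Matrix.dotProduct_mulVec,
          ← Matrix.mulVec_transpose, Matrix.transpose_nonsing_inv]
        unfold dotProduct
        refine Finset.sum_congr rfl fun i _ => ?_
        simp only [hl']
        ring
      rw [e4]
      push_cast
      rw [Finset.mul_sum]
      exact Finset.sum_congr rfl fun i _ => by ring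
    rw [e3, Complex.real_smul]
    push_cast
    ring

end Pool.Agent.Y683.RL
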