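import Pool.Agent.Y683.RL.Fou

/-!
Job KD of project RL (MP_f1d0b6_nt, owner helper813): the Koecher principle in one direction.
-/

set_option autoImplicit false

open Complex Filter Topology Set MeasureTheory
open Pool.Agent.Y813.RL

namespace Pool.Agent.Y683.RL

/-- the Fourier coefficients of a function with parameters are holomorphic -/
theorem fco_holo {E : Type} [NormedAddCommGroup E] [NormedSpace ℂ E] [FiniteDimensional ℂ E]
    {P : Set E} {b : E → ℝ} {F : ℂ × E → ℂ} (hP : IsOpen P) (hb : ContinuousOn b P)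
    (hF : DifferentiableOn ℂ F {W | W.2 ∈ P ∧ b W.2 < W.1.im})
    (hper : ∀ (ω : ℂ) (p : E), p ∈ P → b p < ω.im → F (ω + 1, p) = F (ω, p)) (n : ℤ) :
    DifferentiableOn ℂ (fun p => fco (b p) (fun ω => F (ω, p)) n) P := by
  intro p0 hp0
  have hHP : ∀ p ∈ P, HP (b p) (fun ω => F (ω, p)) := by
    intro p hp
    refine ⟨?_, fun t ht => hper t p hp ht⟩
    refine hF.comp (f := fun t : ℂ => (t, p)) (by fun_prop) fun t ht => ?_
    exact ⟨hp, ht⟩
  set y : ℝ := b p0 + 1 with hy
  set U : Set E := P ∩ b ⁻¹' (Iio y) with hU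
  have hUo : IsOpen U := hb.isOpen_inter_preimage hP isOpen_Iio
  have hp0U : p0 ∈ U := ⟨hp0, by show b p0 < y; rw [hy]; linarith⟩
  have h1 : ∀ p ∈ U, fco (b p) (fun ω => F (ω, p)) n = ∫ x in Icc (0 : ℝ) 1,
      F ((x : ℂ) + (y : ℂ) * Complex.I, p) * ee (-(n * ((x : ℂ) + (y : ℂ) * Complex.I))) := by
    intro p hp
    rw [(hHP p hp.1).fco_eq n (w := (y : ℂ) * Complex.I) (by simpa using hp.2),
      intervalIntegral.integral_of_le zero_le_one, integral_Icc_eq_integral_Ioc]
  have h2 : DifferentiableOn ℂ (fun p => ∫ x in Icc (0 : ℝ) 1,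
      F ((x : ℂ) + (y : ℂ) * Complex.I, p) * ee (-(n * ((x : ℂ) + (y : ℂ) * Complex.I)))) U := by
    refine differentiableOn_setIntegral (f := fun (p : E) (x : ℝ) =>
      F ((x : ℂ) + (y : ℂ) * Complex.I, p) * ee (-(n * ((x : ℂ) + (y : ℂ) * Complex.I))))
      volume isCompact_Icc measurableSet_Icc (by simp) hUo ?_ ?_
    · refine ContinuousOn.mul ?_ (by fun_prop)
      refine hF.continuousOn.comp (by fun_prop) fun q hq => ?_
      have h3 : q.1 ∈ U := hq.1
      exact ⟨h3.1, by simpa using h3.2⟩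
    · intro x _
      refine DifferentiableOn.mul ?_ (differentiableOn_const _)
      refine hF.comp (f := fun p : E => ((x : ℂ) + (y : ℂ) * Complex.I, p)) (by fun_prop)
        fun p hp => ?_
      exact ⟨hp.1, by simpa using hp.2⟩
  exact ((h2.congr h1).differentiableAt (hUo.mem_nhds hp0U)).differentiableWithinAt

/-- transformation law -/
theorem fco_trans {β β' : ℝ} {f f' : ℂ → ℂ} (hf : HP β f) (hf' : HP β' f') {κ c : ℂ}
    (h : ∀ ω : ℂ, β < ω.im → β' < (ω + κ).im → f' (ω + κ) = c * f ω) (n : ℤ) :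
    fco β' f' n = c * ee (-(n * κ)) * fco β f n := by
  set y : ℝ := max β (β' - κ.im) + 1 with hy
  have h1 : β < y := by rw [hy]; linarith [le_max_left β (β' - κ.im)]
  have h2 : β' < y + κ.im := by rw [hy]; linarith [le_max_right β (β' - κ.im)]
  rw [hf.fco_eq n (w := (y : ℂ) * Complex.I) (by simpa using h1),
    hf'.fco_eq n (w := (y : ℂ) * Complex.I + κ) (by simpa using h2),
    ← intervalIntegral.integral_const_mul]
  refine intervalIntegral.integral_congr fun x _ => ?_
  have e : ((x : ℂ) + ((y : ℂ) * Complex.I + κ)) = ((x : ℂ) + (y : ℂ) * Complex.I) + κ := by ring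
  rw [e, h _ (by simpa using h1) (by simpa using h2),
    show -((n : ℂ) * (((x : ℂ) + (y : ℂ) * Complex.I) + κ)) =
      -(n * κ) + -(n * ((x : ℂ) + (y : ℂ) * Complex.I)) by ring, ee_add]
  ring

/-- maximum principle for expansions with nonnegative exponents -/
theorem max_nonneg {β : ℝ} {f : ℂ → ℂ} (hf : HP β f) (hβ : β < 0)
    (hneg : ∀ n : ℤ, n < 0 → fco β f n = 0) {M : ℝ} (hM : ∀ x : ℝ, ‖f x‖ ≤ M) (t : ℂ)
    (ht : 0 ≤ t.im) : ‖f t‖ ≤ M := by
  have hpi := Real.pi_pos
  obtain ⟨C, hC, hb⟩ := hf.fco_bound (y := β / 2) (by linarith)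
  set ρ : ℝ := Real.exp (2 * Real.pi * (β / 2)) with hρ
  have hρ0 : 0 < ρ := Real.exp_pos _
  have hρ1 : ρ < 1 := Real.exp_lt_one_iff.2 (by nlinarith)
  have hb' : ∀ n : ℕ, ‖fco β f n‖ ≤ C * ρ ^ n := by
    intro n
    refine (hb n).trans (le_of_eq ?_)
    rw [hρ, ← Real.exp_nat_mul]
    congr 2
    push_cast
    ring
  -- the power series
  set h : ℂ → ℂ := fun q => ∑' n : ℕ, fco β f n * q ^ n with hh
  set R : ℝ := (1 + ρ⁻¹) / 2 with hR
  have hρi : 1 < ρ⁻¹ := (one_lt_inv₀ hρ0).2 hρ1
  have hR1 : 1 < R := by rw [hR]; linarith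
  have hR0 : 0 < R := by linarith
  have hRρ : ρ * R < 1 := by
    have : R < ρ⁻¹ := by rw [hR]; linarith
    calc ρ * R < ρ * ρ⁻¹ := mul_lt_mul_of_pos_left this hρ0
      _ = 1 := mul_inv_cancel₀ hρ0.ne'
  have hsu : Summable (fun n : ℕ => C * (ρ * R) ^ n) :=
    (summable_geometric_of_lt_one (by positivity) hRρ).mul_left _
  have hle : ∀ (n : ℕ) (q : ℂ), q ∈ Metric.ball (0 : ℂ) R → ‖fco β f n * q ^ n‖ ≤
      C * (ρ * R) ^ n := by
    intro n q hq
    rw [mem_ball_zero_iff] at hq
    rw [norm_mul, norm_pow, mul_pow, ← mul_assoc]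
    exact mul_le_mul (hb' n) (pow_le_pow_left₀ (norm_nonneg _) hq.le n) (by positivity)
      (by positivity)
  have hd : DifferentiableOn ℂ h (Metric.ball (0 : ℂ) R) :=
    differentiableOn_tsum_of_summable_norm hsu (fun n => by fun_prop) Metric.isOpen_ball hle
  -- the relation with `f`
  have hrel : ∀ s : ℂ, 0 ≤ s.im → f s = h (ee s) := by
    intro s hs
    obtain ⟨h1, h2⟩ := hf.hasSum (t := s) (by linarith)
    have h3 : HasSum (fun n : ℕ => fco β f (n : ℤ) * ee (((n : ℤ) : ℂ) * s)) (f s) := by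
      refine (Function.Injective.hasSum_iff (g := fun n : ℕ => (n : ℤ)) Nat.cast_injective ?_).2 h2
      intro n hn
      have : n < 0 := by
        by_contra hcon
        push Not at hcon
        exact hn ⟨n.toNat, Int.toNat_of_nonneg hcon⟩
      rw [hneg n this, zero_mul]
    rw [← h3.tsum_eq]
    simp only [hh]
    refine tsum_congr fun n => ?_
    congr 1
    unfold ee
    rw [← Complex.exp_nat_mul]
    congr 1
    push_cast
    ring
  have hfr : ∀ z ∈ frontier (Metric.ball (0 : ℂ) 1), ‖h z‖ ≤ M := by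
    intro z hz
    rw [frontier_ball (0 : ℂ) one_ne_zero, mem_sphere_zero_iff_norm] at hz
    have h1 : ee ((z.arg / (2 * Real.pi) : ℝ) : ℂ) = z := by
      unfold ee
      have h2 := Complex.norm_mul_exp_arg_mul_I z
      rw [hz, Complex.ofReal_one, one_mul] at h2
      rw [← h2]
      congr 1
      have hpc : (Real.pi : ℂ) ≠ 0 := by exact_mod_cast hpi.ne'
      rw [h2]
      push_cast
      field_simp
    rw [← h1, ← hrel _ (by rw [Complex.ofReal_im])]
    exact hM _
  have hcl : DiffContOnCl ℂ h (Metric.ball (0 : ℂ) 1) := by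
    refine DifferentiableOn.diffContOnCl ?_
    rw [closure_ball (0 : ℂ) one_ne_zero]
    exact hd.mono (Metric.closedBall_subset_ball hR1)
  rw [hrel t ht]
  refine Complex.norm_le_of_forall_mem_frontier_norm_le Metric.isBounded_ball hcl hfr ?_
  rw [closure_ball (0 : ℂ) one_ne_zero, mem_closedBall_zero_iff, ee_norm]
  refine Real.exp_le_one_iff.2 ?_
  have : 0 ≤ 2 * Real.pi * t.im := by positivity
  linarith

theorem jobKD : JobKD := by
  intro θ c m b Φ hθ hm hb hb0 hbθ hΦ h1 h2 h3 M hM t ht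
  have hpi := Real.pi_pos
  -- swap the variables
  set F : ℂ × ℂ → ℂ := fun W => Φ (W.2, W.1) with hF
  have hFd : DifferentiableOn ℂ F {W | W.2 ∈ (univ : Set ℂ) ∧ b W.2.im < W.1.im} :=
    hΦ.comp (f := fun W : ℂ × ℂ => (W.2, W.1)) (by fun_prop) fun W hW => hW.2
  have hHP : ∀ ζ : ℂ, HP (b ζ.im) (fun ω => F (ω, ζ)) := by
    intro ζ
    refine ⟨?_, fun ω hω => h2 ζ ω hω⟩
    exact hFd.comp (f := fun ω : ℂ => (ω, ζ)) (by fun_prop) fun ω hω => ⟨mem_univ _, hω⟩
  have hGd : ∀ n : ℤ, Differentiable ℂ (fun ζ => fco (b ζ.im) (fun ω => F (ω, ζ)) n) := by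
    intro n
    rw [← differentiableOn_univ]
    exact fco_holo (P := (univ : Set ℂ)) (b := fun ζ : ℂ => b ζ.im) (F := F) isOpen_univ
      (hb.comp Complex.continuous_im).continuousOn hFd (fun ω ζ _ hω => h2 ζ ω hω) n
  -- vanishing of the negative coefficients
  have hneg : ∀ n : ℤ, n < 0 → fco (b (0 : ℂ).im) (fun ω => F (ω, 0)) n = 0 := by
    intro n hn
    have hn' : (n : ℝ) < 0 := by exact_mod_cast hn
    set G : ℂ → ℂ := fun ζ => fco (b ζ.im) (fun ω => F (ω, ζ)) n with hG
    have g1 : ∀ ζ, G (ζ + 1) = G ζ := by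
      intro ζ
      have h4 := fco_trans (hHP ζ) (hHP (ζ + 1)) (κ := 0) (c := 1) (by
        intro ω hω _
        rw [add_zero, one_mul]
        exact h1 ζ ω hω) n
      simp only [hG]
      rw [h4, mul_zero, neg_zero, ee_zero, one_mul, one_mul]
    have g2 : ∀ ζ, G (ζ + θ) = ee (-(n * (m * ζ + m * θ / 2 - c))) * G ζ := by
      intro ζ
      have h4 := fco_trans (hHP ζ) (hHP (ζ + θ)) (κ := m * ζ + m * θ / 2 - c) (c := 1) (by
        intro ω hω _
        rw [one_mul]
        have h5 := h3 ζ ω hω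
        simp only [hF]
        rw [← h5]
        congr 2
        ring) n
      simp only [hG]
      rw [h4, one_mul]
    -- the quadratic function
    set T : ℝ := θ.im with hT
    set Q : ℝ → ℝ := fun v => m * v ^ 2 / (2 * T) - c.im / T * v with hQ
    have hQT : ∀ v, Q (v + T) = Q v + (m * v + m * T / 2 - c.im) := by
      intro v
      simp only [hQ]
      field_simp
      ring
    set g : ℂ → ℝ := fun ζ => ‖G ζ‖ * Real.exp (-(2 * Real.pi * n * Q ζ.im)) with hg
    have hg1 : Function.Periodic g 1 := by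
      intro ζ
      simp only [hg]
      rw [g1]
      simp
    have hgθ : Function.Periodic g θ := by
      intro ζ
      simp only [hg]
      rw [g2, norm_mul, ee_norm, Complex.add_im, hQT]
      have e : (-((n : ℂ) * (m * ζ + m * θ / 2 - c))).im = -(n * (m * ζ.im + m * T / 2 - c.im)) := by
        have e2 : (-((n : ℂ) * (m * ζ + m * θ / 2 - c))) =
            ((-(n : ℝ) : ℝ) : ℂ) * (((m : ℝ) : ℂ) * ζ + ((m / 2 : ℝ) : ℂ) * θ - c) := by
          push_cast
          ring
        rw [e2, Complex.im_ofReal_mul, Complex.sub_im, Complex.add_im, Complex.im_ofReal_mul,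
          Complex.im_ofReal_mul, hT]
        ring
      rw [e]
      have e3 : Real.exp (-(2 * Real.pi * -(n * (m * ζ.im + m * T / 2 - c.im)))) *
          Real.exp (-(2 * Real.pi * n * (Q ζ.im + (m * ζ.im + m * T / 2 - c.im)))) =
          Real.exp (-(2 * Real.pi * n * Q ζ.im)) := by
        rw [← Real.exp_add]
        congr 1
        ring
      calc _ = ‖G ζ‖ * (Real.exp (-(2 * Real.pi * -(n * (m * ζ.im + m * T / 2 - c.im)))) *
          Real.exp (-(2 * Real.pi * n * (Q ζ.im + (m * ζ.im + m * T / 2 - c.im))))) := by ring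
        _ = _ := by rw [e3]
    have hGc : Continuous G := (hGd n).continuous
    have hgc : Continuous g := by
      simp only [hg, hQ]
      fun_prop
    have hcpt : IsCompact (Icc (0 : ℝ) 1 ×ℂ Icc (0 : ℝ) T) := isCompact_Icc.reProdIm isCompact_Icc
    obtain ⟨B, hB⟩ := hcpt.exists_bound_of_continuousOn hgc.continuousOn
    have hgB : ∀ ζ, g ζ ≤ B := by
      intro ζ
      set k : ℤ := ⌊ζ.im / T⌋ with hk
      set ζ1 : ℂ := ζ - k • θ with hζ1
      set l : ℤ := ⌊ζ1.re⌋ with hl
      set ζ2 : ℂ := ζ1 - l • 1 with hζ2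
      have e1 : g ζ1 = g ζ := hgθ.sub_zsmul_eq k
      have e2 : g ζ2 = g ζ1 := hg1.sub_zsmul_eq l
      have i1 : ζ1.im = ζ.im - k * T := by
        rw [hζ1]
        simp [hT]
      have i2 : ζ2.im = ζ1.im := by
        rw [hζ2]
        simp
      have i3 : ζ2.re = ζ1.re - l := by
        rw [hζ2]
        simp
      have hk1 : (k : ℝ) ≤ ζ.im / T := Int.floor_le _
      have hk2 : ζ.im / T < k + 1 := Int.lt_floor_add_one _
      rw [le_div_iff₀ hθ] at hk1
      rw [div_lt_iff₀ hθ] at hk2
      have hl1 : (l : ℝ) ≤ ζ1.re := Int.floor_le _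
      have hl2 : ζ1.re < l + 1 := Int.lt_floor_add_one _
      have hmem : ζ2 ∈ Icc (0 : ℝ) 1 ×ℂ Icc (0 : ℝ) T := by
        rw [Complex.mem_reProdIm]
        constructor
        · rw [i3]
          constructor <;> linarith
        · rw [i2, i1]
          constructor <;> nlinarith
      have h5 := hB ζ2 hmem
      rw [e2, e1, Real.norm_eq_abs] at h5
      exact (le_abs_self _).trans h5
    have hGB : ∀ ζ, ‖G ζ‖ ≤ B * Real.exp (2 * Real.pi * n * Q ζ.im) := by
      intro ζ
      have h5 := hgB ζ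
      simp only [hg] at h5
      have h6 := mul_le_mul_of_nonneg_right h5 (Real.exp_pos (2 * Real.pi * n * Q ζ.im)).le
      rw [mul_assoc, ← Real.exp_add, neg_add_cancel, Real.exp_zero, mul_one] at h6
      exact h6
    have hB0 : 0 ≤ B := by
      have h5 := hgB 0
      simp only [hg] at h5
      exact le_trans (by positivity) h5
    -- the quadratic function is bounded below
    have hQb : ∀ v, -(c.im ^ 2 / (2 * m * T)) ≤ Q v := by
      intro v
      have e : Q v + c.im ^ 2 / (2 * m * T) = (m * v - c.im) ^ 2 / (2 * m * T) := by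
        simp only [hQ]
        field_simp
        ring
      have : 0 ≤ (m * v - c.im) ^ 2 / (2 * m * T) := by positivity
      linarith
    have hbdd : Bornology.IsBounded (range G) := by
      rw [isBounded_iff_forall_norm_le]
      refine ⟨B * Real.exp (-(2 * Real.pi * n) * (c.im ^ 2 / (2 * m * T))), ?_⟩
      rintro _ ⟨ζ, rfl⟩
      refine (hGB ζ).trans (mul_le_mul_of_nonneg_left (Real.exp_le_exp.2 ?_) hB0)
      have h5 := hQb ζ.im
      have h6 : 0 ≤ -(2 * Real.pi * n) := by nlinarith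
      nlinarith
    have hconst : ∀ ζ, G ζ = G 0 := fun ζ => (hGd n).apply_eq_apply_of_bounded hbdd ζ 0
    have hQt : Tendsto Q atTop atTop := by
      have e : Q = fun v => v * (m / (2 * T) * v - c.im / T) := by
        funext v
        simp only [hQ]
        ring
      rw [e]
      refine Tendsto.atTop_mul_atTop₀ tendsto_id ?_
      refine tendsto_atTop_add_const_right _ _ ?_
      exact tendsto_id.const_mul_atTop (by positivity)
    have hlim : Tendsto (fun v : ℝ => B * Real.exp (2 * Real.pi * n * Q v)) atTop (𝓝 0) := by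
      have h5 : Tendsto (fun v : ℝ => 2 * Real.pi * n * Q v) atTop atBot :=
        hQt.const_mul_atTop_of_neg (by nlinarith)
      have h6 := (Real.tendsto_exp_atBot.comp h5).const_mul B
      rw [mul_zero] at h6
      exact h6
    have hle : ∀ v : ℝ, ‖G 0‖ ≤ B * Real.exp (2 * Real.pi * n * Q v) := by
      intro v
      have h5 := hGB ((v : ℂ) * Complex.I)
      rw [hconst] at h5
      simpa using h5
    have h7 : ‖G 0‖ ≤ 0 := ge_of_tendsto' hlim hle
    exact norm_le_zero_iff.1 h7
  have h8 := max_nonneg (hHP 0) (by simpa using hb0) hneg (M := M) (fun x => hM x) t ht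
  exact h8

end Pool.Agent.Y683.RL
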