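import Pool.Agent.Y683.RL.Tor

/-!
Project RL (MP_f1d0b6_nt, owner helper813): Fourier expansions of entire periodic functions of
several variables.
-/

set_option autoImplicit false

open Complex Filter Topology Set MeasureTheory
open Pool.Agent.Y813.RL

namespace Pool.Agent.Y683.RL

variable {n : ℕ}

/-- the pairing -/
def dn (μ : Fin n → ℤ) (z : Fin n → ℂ) : ℂ := ∑ i, (μ i : ℂ) * z i

lemma dn_add (μ : Fin n → ℤ) (z w : Fin n → ℂ) : dn μ (fun i => z i + w i) = dn μ z + dn μ w := by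
  unfold dn
  rw [← Finset.sum_add_distrib]
  exact Finset.sum_congr rfl fun i _ => by ring

lemma dn_int (μ v : Fin n → ℤ) : ee (dn μ (fun i => (v i : ℂ))) = 1 := by
  have h : dn μ (fun i => (v i : ℂ)) = ((∑ i, μ i * v i : ℤ) : ℂ) := by
    unfold dn
    push_cast
    rfl
  rw [h, ee_int]

lemma dn_int_neg (μ v : Fin n → ℤ) : ee (-dn μ (fun i => (v i : ℂ))) = 1 := by
  have h : -dn μ (fun i => (v i : ℂ)) = ((-∑ i, μ i * v i : ℤ) : ℂ) := by
    unfold dn
    push_cast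
    rfl
  rw [h, ee_int]

lemma dn_diff (μ : Fin n → ℤ) : Differentiable ℂ (dn μ) := by
  unfold dn
  fun_prop

/-- entire and periodic -/
structure EP (g : (Fin n → ℂ) → ℂ) : Prop where
  holo : Differentiable ℂ g
  per : ∀ (z : Fin n → ℂ) (v : Fin n → ℤ), g (fun i => z i + (v i : ℂ)) = g z

/-- the Fourier coefficients -/
noncomputable def mc (g : (Fin n → ℂ) → ℂ) (μ : Fin n → ℤ) : ℂ :=
  ∫ y in Icc (0 : Fin n → ℝ) 1, g (fun i => (y i : ℂ)) * ee (-(dn μ (fun i => (y i : ℂ))))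

variable {g : (Fin n → ℂ) → ℂ}

lemma EP.mul_ee (hg : EP g) (μ : Fin n → ℤ) : EP (fun z => g z * ee (-(dn μ z))) where
  holo := hg.holo.mul (ee_diff.comp (dn_diff μ).neg)
  per z v := by
    rw [hg.per, dn_add, neg_add, ee_add, dn_int_neg, mul_one]

/-- shift of the contour -/
theorem EP.mc_shift (hg : EP g) (μ : Fin n → ℤ) (w : Fin n → ℂ) :
    mc g μ = ∫ y in Icc (0 : Fin n → ℝ) 1, g (fun i => w i + (y i : ℂ)) *
      ee (-(dn μ (fun i => w i + (y i : ℂ)))) :=
  (cshift _ (hg.mul_ee μ).holo (hg.mul_ee μ).per w).symm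

/-- `ee` of the pairing in absolute value -/
lemma ee_dn_norm (μ : Fin n → ℤ) (z : Fin n → ℂ) :
    ‖ee (dn μ z)‖ = Real.exp (-(2 * Real.pi * ∑ i, (μ i : ℝ) * (z i).im)) := by
  rw [ee_norm]
  congr 3
  unfold dn
  simp [Complex.im_sum]

/-- superexponential decay -/
theorem EP.mc_decay (hg : EP g) {L : ℝ} (hL : 0 ≤ L) : ∃ C : ℝ, 0 ≤ C ∧
    ∀ μ : Fin n → ℤ, ‖mc g μ‖ ≤ C * Real.exp (-(2 * Real.pi * L * ∑ i, |(μ i : ℝ)|)) := by
  obtain ⟨C, hC⟩ := (isCompact_closedBall (0 : Fin n → ℂ) (L + 1)).exists_bound_of_continuousOn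
    hg.holo.continuous.continuousOn
  have hC0 : 0 ≤ C := (norm_nonneg _).trans (hC 0 (Metric.mem_closedBall_self (by linarith)))
  refine ⟨C, hC0, fun μ => ?_⟩
  set w : Fin n → ℂ := fun i => ((-L * SignType.sign (μ i : ℝ) : ℝ) : ℂ) * Complex.I with hw
  rw [hg.mc_shift μ w]
  have hsg : ∀ i, |((SignType.sign (μ i : ℝ) : SignType) : ℝ)| ≤ 1 := by
    intro i
    rcases lt_trichotomy (μ i : ℝ) 0 with h | h | h
    · simp [h]
    · simp [h]
    · simp [h]
  have h1 : ∀ y ∈ Icc (0 : Fin n → ℝ) 1, ‖g (fun i => w i + (y i : ℂ)) *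
      ee (-(dn μ (fun i => w i + (y i : ℂ))))‖ ≤
      C * Real.exp (-(2 * Real.pi * L * ∑ i, |(μ i : ℝ)|)) := by
    intro y hy
    rw [norm_mul]
    have h2 : ‖g (fun i => w i + (y i : ℂ))‖ ≤ C := by
      refine hC _ ?_
      rw [mem_closedBall_zero_iff, pi_norm_le_iff_of_nonneg (by linarith)]
      intro i
      refine (norm_add_le _ _).trans ?_
      refine add_le_add ?_ ?_
      · simp only [hw]
        rw [norm_mul, Complex.norm_real, Complex.norm_I, mul_one, norm_mul, norm_neg,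
          Real.norm_of_nonneg hL, Real.norm_eq_abs]
        calc L * |((SignType.sign (μ i : ℝ) : SignType) : ℝ)| ≤ L * 1 :=
              mul_le_mul_of_nonneg_left (hsg i) hL
          _ = L := mul_one L
      · rw [Complex.norm_real, Real.norm_of_nonneg (hy.1 i)]
        exact hy.2 i
    have h3 : ‖ee (-(dn μ (fun i => w i + (y i : ℂ))))‖ =
        Real.exp (-(2 * Real.pi * L * ∑ i, |(μ i : ℝ)|)) := by
      rw [ee_norm]
      congr 1
      have e1 : (-(dn μ (fun i => w i + (y i : ℂ)))).im = L * ∑ i, |(μ i : ℝ)| := by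
        unfold dn
        rw [Complex.neg_im, Complex.im_sum, ← Finset.sum_neg_distrib, Finset.mul_sum]
        refine Finset.sum_congr rfl fun i _ => ?_
        simp only [hw]
        rw [← sign_mul_self (μ i : ℝ)]
        simp
        ring
      rw [e1]
      ring
    rw [h3]
    exact mul_le_mul_of_nonneg_right h2 (Real.exp_pos _).le
  have h4 := norm_setIntegral_le_of_norm_le_const (μ := volume) (s := Icc (0 : Fin n → ℝ) 1)
    (isCompact_Icc.measure_lt_top) h1
  refine h4.trans (le_of_eq ?_)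
  have h5 : (volume : Measure (Fin n → ℝ)).real (Icc (0 : Fin n → ℝ) 1) = 1 := by
    rw [Measure.real, Real.volume_Icc_pi]
    simp
  rw [h5, mul_one]

/-- absolute convergence of the Fourier series, in a uniform form -/
theorem EP.mc_summable (hg : EP g) {Y : ℝ} (hY : 0 ≤ Y) :
    Summable (fun μ : Fin n → ℤ => ‖mc g μ‖ * Real.exp (2 * Real.pi * Y * ∑ i, |(μ i : ℝ)|)) := by
  obtain ⟨C, hC0, hC⟩ := hg.mc_decay (L := Y + 1) (by linarith)
  refine Summable.of_nonneg_of_le (fun μ => by positivity) (fun μ => ?_)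
    ((summ_abs (c := 2 * Real.pi) (by positivity) n).mul_left C)
  calc ‖mc g μ‖ * Real.exp (2 * Real.pi * Y * ∑ i, |(μ i : ℝ)|) ≤
      (C * Real.exp (-(2 * Real.pi * (Y + 1) * ∑ i, |(μ i : ℝ)|))) *
        Real.exp (2 * Real.pi * Y * ∑ i, |(μ i : ℝ)|) :=
        mul_le_mul_of_nonneg_right (hC μ) (Real.exp_pos _).le
    _ = _ := by
        rw [mul_assoc, ← Real.exp_add]
        congr 2
        ring

lemma ee_dn_le (μ : Fin n → ℤ) (z : Fin n → ℂ) {Y : ℝ} (hz : ∀ i, |(z i).im| ≤ Y) :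
    ‖ee (dn μ z)‖ ≤ Real.exp (2 * Real.pi * Y * ∑ i, |(μ i : ℝ)|) := by
  rw [ee_dn_norm]
  refine Real.exp_le_exp.2 ?_
  have h1 : -(∑ i, (μ i : ℝ) * (z i).im) ≤ Y * ∑ i, |(μ i : ℝ)| := by
    rw [← Finset.sum_neg_distrib, Finset.mul_sum]
    refine Finset.sum_le_sum fun i _ => ?_
    calc -((μ i : ℝ) * (z i).im) ≤ |(μ i : ℝ) * (z i).im| := neg_le_abs _
      _ = |(z i).im| * |(μ i : ℝ)| := by rw [abs_mul, mul_comm]
      _ ≤ Y * |(μ i : ℝ)| := mul_le_mul_of_nonneg_right (hz i) (abs_nonneg _)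
  have h2 := mul_le_mul_of_nonneg_left h1 (by positivity : (0 : ℝ) ≤ 2 * Real.pi)
  linarith

theorem mFourier_pr (μ : Fin n → ℤ) (y : Fin n → ℝ) :
    UnitAddTorus.mFourier μ (pr y) = ee (dn μ (fun i => (y i : ℂ))) := by
  show ∏ i, fourier (μ i) ((y i : ℝ) : UnitAddCircle) = _
  unfold dn ee
  rw [Finset.mul_sum, Complex.exp_sum]
  refine Finset.prod_congr rfl fun i _ => ?_
  rw [fourier_coe_apply]
  congr 1
  push_cast
  ring

/-- the Fourier expansion -/
theorem EP.hasSum (hg : EP g) (z : Fin n → ℂ) :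
    HasSum (fun μ : Fin n → ℤ => mc g μ * ee (dn μ z)) (g z) := by
  obtain ⟨h, hh⟩ := exists_lift (fun y : Fin n → ℝ => g (fun i => z i + (y i : ℂ)))
    (hg.holo.continuous.comp (by fun_prop)) (by
      intro y v
      refine Eq.trans ?_ (hg.per (fun i => z i + (y i : ℂ)) v)
      congr 1
      funext i
      push_cast
      ring)
  have hcoef : ∀ μ : Fin n → ℤ, UnitAddTorus.mFourierCoeff h μ = mc g μ * ee (dn μ z) := by
    intro μ
    rw [UnitAddTorus.mFourierCoeff_eq_integral h μ 0]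
    have e0 : ∫ (x : Fin n → ℝ) in {x : Fin n → ℝ | ∀ i, x i ∈ Ioc ((0 : Fin n → ℝ) i)
        ((0 : Fin n → ℝ) i + 1)},
        UnitAddTorus.mFourier (-μ) (fun i => (x i : UnitAddCircle)) •
          h (fun i => (x i : UnitAddCircle)) =
        ∫ y in Icc (0 : Fin n → ℝ) 1, UnitAddTorus.mFourier (-μ) (fun i => (y i : UnitAddCircle)) •
          h (fun i => (y i : UnitAddCircle)) := by
      refine setIntegral_congr_set ?_
      have h1 : ({x : Fin n → ℝ | ∀ i, x i ∈ Ioc ((0 : Fin n → ℝ) i) ((0 : Fin n → ℝ) i + 1)}) =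
          Set.pi univ fun i => Ioc ((0 : Fin n → ℝ) i) ((1 : Fin n → ℝ) i) := by
        ext x
        simp
      rw [h1]
      exact Measure.univ_pi_Ioc_ae_eq_Icc
    rw [e0, hg.mc_shift μ z, ← integral_mul_const]
    refine setIntegral_congr_fun measurableSet_Icc fun y _ => ?_
    show UnitAddTorus.mFourier (-μ) (pr y) • h (pr y) = _
    rw [mFourier_pr, hh, smul_eq_mul]
    show ee (dn (-μ) (fun i => (y i : ℂ))) * g (fun i => z i + (y i : ℂ)) =
      g (fun i => z i + (y i : ℂ)) * ee (-(dn μ (fun i => z i + (y i : ℂ)))) * ee (dn μ z)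
    have e1 : dn (-μ) (fun i => (y i : ℂ)) = -(dn μ (fun i => z i + (y i : ℂ))) + dn μ z := by
      rw [dn_add]
      unfold dn
      simp
    rw [e1, ee_add]
    ring
  obtain ⟨Y, hY0, hY⟩ : ∃ Y : ℝ, 0 ≤ Y ∧ ∀ i, |(z i).im| ≤ Y :=
    ⟨‖z‖, norm_nonneg _, fun i => (Complex.abs_im_le_norm _).trans (norm_le_pi_norm z i)⟩
  have hsum : Summable (UnitAddTorus.mFourierCoeff h) := by
    refine Summable.of_norm_bounded (hg.mc_summable hY0) fun μ => ?_
    rw [hcoef, norm_mul]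
    exact mul_le_mul_of_nonneg_left (ee_dn_le μ z hY) (norm_nonneg _)
  have h3 := UnitAddTorus.hasSum_mFourier_series_apply_of_summable hsum (pr 0)
  have h4 : h (pr 0) = g z := by
    rw [hh]
    congr 1
    funext i
    simp
  rw [h4] at h3
  have h5 : (fun μ : Fin n → ℤ => UnitAddTorus.mFourierCoeff h μ • UnitAddTorus.mFourier μ (pr 0)) =
      fun μ : Fin n → ℤ => mc g μ * ee (dn μ z) := by
    funext μ
    rw [hcoef, mFourier_pr, smul_eq_mul]
    have : dn μ (fun i => (((0 : Fin n → ℝ) i : ℝ) : ℂ)) = 0 := by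
      unfold dn
      simp
    rw [this, ee_zero, mul_one]
  rw [h5] at h3
  exact h3

end Pool.Agent.Y683.RL
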