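import Pool.Agent.Y683.RL.Mf
import Pool.Agent.Y155.RL.FinFour

/-!
Project RL (MP_f1d0b6_nt, owner helper813): job THETA1.
-/

set_option autoImplicit false

open Complex Filter Topology Set MeasureTheory
open Pool.Agent.Y813.RL

namespace Pool.Agent.Y683.RL

variable {A : Matrix (Fin 20) (Fin 20) ℤ} {c : ℂ → (Fin 20 → ℂ) → ℂ}

lemma ep_of (hc : JacobiZero A c) {τ : ℂ} (hτ : 0 < τ.im) : EP (c τ) where
  holo := by
    have h1 : DifferentiableOn ℂ (fun z : Fin 20 → ℂ => c τ z) univ := by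
      have h2 := hc.holo.comp (t := {p : ℂ × (Fin 20 → ℂ) | 0 < p.1.im})
        (f := fun z : Fin 20 → ℂ => (τ, z)) (s := univ) (by fun_prop) (fun z _ => hτ)
      exact h2
    exact differentiableOn_univ.1 h1
  per z v := hc.perz τ z v hτ

lemma fc_mc (c : ℂ → (Fin 20 → ℂ) → ℂ) (μ : Fin 20 → ℤ) (τ : ℂ) : fc c μ τ = mc (c τ) μ := rfl

lemma fc_holo (hc : JacobiZero A c) (μ : Fin 20 → ℤ) :
    DifferentiableOn ℂ (fc c μ) {τ | 0 < τ.im} := by
  have hU : IsOpen {τ : ℂ | 0 < τ.im} := isOpen_lt continuous_const Complex.continuous_im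
  refine differentiableOn_setIntegral (f := fun (τ : ℂ) (y : Fin 20 → ℝ) =>
    c τ (fun i => (y i : ℂ)) * ee (-(dt μ (fun i => (y i : ℂ))))) volume isCompact_Icc
    measurableSet_Icc (isCompact_Icc.measure_lt_top) hU ?_ ?_
  · refine ContinuousOn.mul ?_ ?_
    · exact hc.holo.continuousOn.comp (f := fun q : ℂ × (Fin 20 → ℝ) =>
        ((q.1, fun i => (q.2 i : ℂ)) : ℂ × (Fin 20 → ℂ))) (by fun_prop) (fun q hq => hq.1)
    · unfold dt
      fun_prop
  · intro y _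
    refine DifferentiableOn.mul_const ?_ _
    have h2 := hc.holo.comp (t := {p : ℂ × (Fin 20 → ℂ) | 0 < p.1.im})
        (f := fun τ : ℂ => (τ, fun i => (y i : ℂ))) (s := {τ : ℂ | 0 < τ.im}) (by fun_prop)
        (fun z hz => hz)
    exact h2

lemma fc_per (hc : JacobiZero A c) (μ : Fin 20 → ℤ) {τ : ℂ} (hτ : 0 < τ.im) :
    fc c μ (τ + 1) = fc c μ τ := by
  unfold fc
  refine integral_congr_ae (Eventually.of_forall fun y => ?_)
  show c (τ + 1) _ * _ = c τ _ * _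
  rw [hc.perτ τ _ hτ]

/-- the form as a pairing -/
lemma bf_pair (hA : PosSymm A) (v : Fin 20 → ℤ) (z : Fin 20 → ℂ) :
    bf A (fun i => (v i : ℂ)) z = dn (A.mulVec v) z := by
  unfold bf dn
  rw [Finset.sum_comm]
  refine Finset.sum_congr rfl fun j _ => ?_
  rw [← Finset.sum_mul]
  congr 1
  simp only [Matrix.mulVec, dotProduct]
  push_cast
  refine Finset.sum_congr rfl fun i _ => ?_
  have h := congrFun (congrFun hA.symm i) j
  simp only [Matrix.transpose_apply] at h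
  rw [h]
  ring

lemma dn_add_left {n : ℕ} (μ μ' : Fin n → ℤ) (z : Fin n → ℂ) : dn (μ + μ') z = dn μ z + dn μ' z := by
  unfold dn
  rw [← Finset.sum_add_distrib]
  refine Finset.sum_congr rfl fun i _ => ?_
  simp only [Pi.add_apply]
  push_cast
  ring

lemma dn_smul {n : ℕ} (μ : Fin n → ℤ) (a : ℂ) (z : Fin n → ℂ) :
    dn μ (fun i => a * z i) = a * dn μ z := by
  unfold dn
  rw [Finset.mul_sum]
  exact Finset.sum_congr rfl fun i _ => by ring

/-- quasi-periodicity of the Fourier coefficients -/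
lemma fc_quasi (hA : PosSymm A) (hc : JacobiZero A c) (μ v : Fin 20 → ℤ) {τ : ℂ} (hτ : 0 < τ.im) :
    fc c μ τ = ee (-(τ * (bf A (fun i => (v i : ℂ)) (fun i => (v i : ℂ)) / 2 +
      dn μ (fun i => (v i : ℂ))))) * fc c (μ + A.mulVec v) τ := by
  rw [fc_mc, (ep_of hc hτ).mc_shift μ (fun i => τ * (v i : ℂ)), fc_mc]
  unfold mc
  rw [← integral_const_mul]
  refine integral_congr_ae (Eventually.of_forall fun y => ?_)
  show c τ (fun i => τ * (v i : ℂ) + (y i : ℂ)) * ee (-(dn μ (fun i => τ * (v i : ℂ) + (y i : ℂ)))) =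
    ee (-(τ * (bf A (fun i => (v i : ℂ)) (fun i => (v i : ℂ)) / 2 + dn μ (fun i => (v i : ℂ))))) *
      (c τ (fun i => (y i : ℂ)) * ee (-(dn (μ + A.mulVec v) (fun i => (y i : ℂ)))))
  have e1 : (fun i => τ * (v i : ℂ) + (y i : ℂ)) = fun i => (y i : ℂ) + τ * (v i : ℂ) := by
    funext i
    ring
  rw [e1, hc.quasi τ _ v hτ, dn_add, dn_smul, dn_add_left, bf_pair hA v (fun i => (y i : ℂ))]
  have e2 : -(dn (A.mulVec v) (fun i => (y i : ℂ)) +
      τ * bf A (fun i => (v i : ℂ)) (fun i => (v i : ℂ)) / 2) +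
      -(dn μ (fun i => (y i : ℂ)) + τ * dn μ (fun i => (v i : ℂ))) =
      -(τ * (bf A (fun i => (v i : ℂ)) (fun i => (v i : ℂ)) / 2 + dn μ (fun i => (v i : ℂ)))) +
      -(dn μ (fun i => (y i : ℂ)) + dn (A.mulVec v) (fun i => (y i : ℂ))) := by ring
  calc _ = ee (-(dn (A.mulVec v) (fun i => (y i : ℂ)) +
      τ * bf A (fun i => (v i : ℂ)) (fun i => (v i : ℂ)) / 2) +
      -(dn μ (fun i => (y i : ℂ)) + τ * dn μ (fun i => (v i : ℂ)))) * c τ (fun i => (y i : ℂ)) := by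
        rw [ee_add]
        ring
    _ = _ := by
        rw [e2, ee_add]
        ring

lemma dn_cast {n : ℕ} (μ v : Fin n → ℤ) :
    dn μ (fun i => (v i : ℂ)) = ((∑ i, μ i * v i : ℤ) : ℂ) := by
  unfold dn
  push_cast
  rfl

lemma bd_shift (hA : PosSymm A) (μ v : Fin 20 → ℤ) :
    (bd A (μ + A.mulVec v) (μ + A.mulVec v) : ℂ) = bd A μ μ +
      (bf A (fun i => (v i : ℂ)) (fun i => (v i : ℂ)) + 2 * dn μ (fun i => (v i : ℂ))) := by
  rw [Pool.Agent.Y155.RL.bd_add_left, Pool.Agent.Y155.RL.bd_add_right,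
    Pool.Agent.Y155.RL.bd_add_right, Pool.Agent.Y155.RL.bd_mulVec_right hA,
    Pool.Agent.Y155.RL.bd_mulVec_left hA, Pool.Agent.Y155.RL.bd_mulVec_right hA, bf_pair hA,
    dn_cast, dn_cast]
  push_cast
  ring

lemma vf_inv (hA : PosSymm A) (hc : JacobiZero A c) (μ v : Fin 20 → ℤ) {τ : ℂ} (hτ : 0 < τ.im) :
    vf A c (μ + A.mulVec v) τ = vf A c μ τ := by
  unfold vf
  rw [fc_quasi hA hc μ v hτ, bd_shift hA, ← mul_assoc, ← ee_add]
  congr 2
  ring

/-- THETA1 -/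
theorem jobTheta1 : JobTheta1 := by
  intro A c hA hc
  refine ⟨fc_holo hc, fun μ τ hτ => fc_per hc μ hτ, fun μ τ w hτ => (ep_of hc hτ).mc_shift μ w,
    fun μ v τ hτ => vf_inv hA hc μ v hτ, fun τ z hτ => ?_⟩
  exact (ep_of hc hτ).hasSum z

end Pool.Agent.Y683.RL
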