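import Pool.Agent.Y683.RL.Gau

/-!
Project RL (MP_f1d0b6_nt, owner helper813): job THETA2, the inversion formula.
-/

set_option autoImplicit false

open Complex Filter Topology Set MeasureTheory
open Pool.Agent.Y813.RL

namespace Pool.Agent.Y683.RL

variable {A : Matrix (Fin 20) (Fin 20) ℤ} {c : ℂ → (Fin 20 → ℂ) → ℂ}

open Pool.Agent.Y155.RL (rm rm_posDef rm_unit bf_eq bd_def)

/-- the Gaussian -/
noncomputable def Gf (A : Matrix (Fin 20) (Fin 20) ℤ) (μ : Fin 20 → ℤ) (τ : ℂ) (x : Fin 20 → ℝ) :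
    ℂ := ee (-((bf A x x : ℝ) : ℂ) / (2 * τ) - ((∑ i, (μ i : ℝ) * x i : ℝ) : ℂ))

lemma im_inv_pos {τ : ℂ} (hτ : 0 < τ.im) : 0 < (-1 / τ).im := by
  have h0 : τ ≠ 0 := by
    intro h
    rw [h] at hτ
    simp at hτ
  have h1 : 0 < Complex.normSq τ := Complex.normSq_pos.2 h0
  rw [neg_div, Complex.neg_im, one_div, Complex.inv_im]
  rw [neg_div, neg_neg]
  positivity

lemma b_re {τ : ℂ} (hτ : 0 < τ.im) : 0 < ((Real.pi : ℂ) * Complex.I / τ).re := by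
  have h0 : τ ≠ 0 := by
    intro h
    rw [h] at hτ
    simp at hτ
  have h1 : 0 < Complex.normSq τ := Complex.normSq_pos.2 h0
  have h2 := Real.pi_pos
  rw [Complex.div_re]
  simp
  positivity

lemma Gf_gauss (hA : PosSymm A) (μ : Fin 20 → ℤ) {τ : ℂ} (hτ : 0 < τ.im) :
    Integrable (Gf A μ τ) ∧ ∫ x, Gf A μ τ x =
      -(τ ^ 10) / (Real.sqrt (A.det : ℝ) : ℂ) * ee (τ * (bd A μ μ : ℂ) / 2) := by
  have h0 : τ ≠ 0 := by
    intro h
    rw [h] at hτ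
    simp at hτ
  have hpi : (Real.pi : ℂ) ≠ 0 := by exact_mod_cast Real.pi_ne_zero
  have h1 := gauss (rm_posDef hA) (b_re hτ) (-(2 * Real.pi * Complex.I)) (fun i => (μ i : ℝ))
  have h2 : (fun y : Fin 20 → ℝ => cexp (-((Real.pi : ℂ) * Complex.I / τ) *
      ((y ⬝ᵥ (rm A).mulVec y : ℝ) : ℂ) +
      (-(2 * Real.pi * Complex.I)) * (((fun i => (μ i : ℝ)) ⬝ᵥ y : ℝ) : ℂ))) = Gf A μ τ := by
    funext y
    unfold Gf ee
    rw [bf_eq]
    congr 1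
    have : ((fun i => (μ i : ℝ)) ⬝ᵥ y : ℝ) = ∑ i, (μ i : ℝ) * y i := rfl
    rw [this]
    field_simp
    ring
  rw [h2] at h1
  refine ⟨h1.1, ?_⟩
  have h3 := h1.2
  refine h3.trans ?_
  have e1 : (((20 : ℕ) : ℂ) / 2) = ((10 : ℕ) : ℂ) := by norm_num
  have e2 : (Real.pi : ℂ) / ((Real.pi : ℂ) * Complex.I / τ) = -Complex.I * τ := by
    field_simp
    rw [Complex.I_sq]
    norm_num
  rw [e1, Complex.cpow_natCast, e2, mul_pow]
  have e3 : (-Complex.I) ^ 10 = -1 := by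
    rw [show (10 : ℕ) = 2 * 5 by norm_num, pow_mul, neg_sq, Complex.I_sq]
    norm_num
  rw [e3, Pool.Agent.Y155.RL.rm_det, ← bd_def]
  have e4 : (-(2 * (Real.pi : ℂ) * Complex.I)) ^ 2 * (bd A μ μ : ℂ) /
      (4 * ((Real.pi : ℂ) * Complex.I / τ)) = 2 * Real.pi * Complex.I * (τ * (bd A μ μ : ℂ) / 2) := by
    field_simp
    ring
  rw [e4]
  unfold ee
  ring

/-- the dual vector -/
noncomputable def rv (A : Matrix (Fin 20) (Fin 20) ℤ) (ν : Fin 20 → ℤ) : Fin 20 → ℝ :=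
  (rm A)⁻¹.mulVec (fun j => (ν j : ℝ))

lemma rv_shift (hA : PosSymm A) (ρ v : Fin 20 → ℤ) :
    rv A (ρ + A.mulVec v) = rv A ρ + fun i => (v i : ℝ) := by
  unfold rv
  have h1 : (fun j => (((ρ + A.mulVec v) j : ℤ) : ℝ)) = (fun j => (ρ j : ℝ)) +
      (rm A).mulVec (fun j => (v j : ℝ)) := by
    rw [← Pool.Agent.Y155.RL.cast_mulVec]
    funext j
    simp
  rw [h1, Matrix.mulVec_add, Matrix.mulVec_mulVec, Matrix.nonsing_inv_mul _ (rm_unit hA),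
    Matrix.one_mulVec]

lemma rm_symm (hA : PosSymm A) : (rm A).transpose = rm A := by
  ext i j
  have := congrFun (congrFun hA.symm i) j
  simp only [Matrix.transpose_apply] at this
  simp [this]

lemma Q_sub (hA : PosSymm A) (y : Fin 20 → ℝ) (ν : Fin 20 → ℤ) :
    bf A (y - rv A ν) (y - rv A ν) = bf A y y - 2 * (∑ i, (ν i : ℝ) * y i) + bd A ν ν := by
  have h1 : (rm A).mulVec (rv A ν) = fun j => (ν j : ℝ) := by
    unfold rv
    rw [Matrix.mulVec_mulVec, Matrix.mul_nonsing_inv _ (rm_unit hA), Matrix.one_mulVec]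
  have h2 : rv A ν ⬝ᵥ (rm A).mulVec y = ∑ i, (ν i : ℝ) * y i := by
    rw [Matrix.dotProduct_mulVec, ← Matrix.mulVec_transpose, rm_symm hA, h1]
    rfl
  have h3 : y ⬝ᵥ (fun j => (ν j : ℝ)) = ∑ i, (ν i : ℝ) * y i := by
    rw [dotProduct_comm]
    rfl
  have h4 : rv A ν ⬝ᵥ (fun j => (ν j : ℝ)) = bd A ν ν := by
    rw [dotProduct_comm]
    rfl
  rw [bf_eq, bf_eq, Matrix.mulVec_sub, sub_dotProduct, dotProduct_sub, dotProduct_sub, h1, h2, h3,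
    h4]
  ring

lemma bf_cast (A : Matrix (Fin 20) (Fin 20) ℤ) (y : Fin 20 → ℝ) :
    bf A (fun i => (y i : ℂ)) (fun i => (y i : ℂ)) = ((bf A y y : ℝ) : ℂ) := by
  unfold bf
  push_cast
  rfl

lemma fc_vf (A : Matrix (Fin 20) (Fin 20) ℤ) (c : ℂ → (Fin 20 → ℂ) → ℂ) (ν : Fin 20 → ℤ) (τ : ℂ) :
    fc c ν τ = vf A c ν τ * ee (τ * (bd A ν ν : ℂ) / 2) := by
  unfold vf
  rw [mul_comm, ← mul_assoc, ← ee_add]
  rw [add_neg_cancel, ee_zero, one_mul]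

/-- the terms -/
noncomputable def Tt (A : Matrix (Fin 20) (Fin 20) ℤ) (c : ℂ → (Fin 20 → ℂ) → ℂ) (μ : Fin 20 → ℤ)
    (τ : ℂ) (ν : Fin 20 → ℤ) (y : Fin 20 → ℝ) : ℂ :=
  fc c ν (-1 / τ) * ee (dn ν (fun i => (y i : ℂ) / τ)) *
    (ee (-(((bf A y y : ℝ) : ℂ) / (2 * τ))) * ee (-(dn μ (fun i => (y i : ℂ)))))

lemma Tt_eq (hA : PosSymm A) (μ : Fin 20 → ℤ) {τ : ℂ} (hτ : 0 < τ.im) (ν : Fin 20 → ℤ)
    (y : Fin 20 → ℝ) : Tt A c μ τ ν y =
      vf A c ν (-1 / τ) * ee (-(bd A μ ν : ℂ)) * Gf A μ τ (y - rv A ν) := by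
  have h0 : τ ≠ 0 := by
    intro h
    rw [h] at hτ
    simp at hτ
  unfold Tt Gf
  rw [fc_vf A c ν, Q_sub hA]
  have e1 : dn ν (fun i => (y i : ℂ) / τ) = ((∑ i, (ν i : ℝ) * y i : ℝ) : ℂ) / τ := by
    unfold dn
    push_cast
    rw [Finset.sum_div]
    exact Finset.sum_congr rfl fun i _ => by ring
  have e2 : dn μ (fun i => (y i : ℂ)) = ((∑ i, (μ i : ℝ) * y i : ℝ) : ℂ) := by
    unfold dn
    push_cast
    rfl
  have e3 : ∑ i, (μ i : ℝ) * (y - rv A ν) i = (∑ i, (μ i : ℝ) * y i) - bd A μ ν := by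
    have : bd A μ ν = ∑ i, (μ i : ℝ) * (rv A ν) i := rfl
    rw [this, ← Finset.sum_sub_distrib]
    exact Finset.sum_congr rfl fun i _ => by simp only [Pi.sub_apply]; ring
  rw [e1, e2, e3]
  rw [mul_assoc (vf A c ν (-1 / τ)), mul_assoc (vf A c ν (-1 / τ)), mul_assoc (vf A c ν (-1 / τ)),
    ← ee_add, ← ee_add, ← ee_add, ← ee_add]
  congr 2
  push_cast
  field_simp
  ring

lemma c_inv (hc : JacobiZero A c) {τ : ℂ} (hτ : 0 < τ.im) (z : Fin 20 → ℂ) :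
    c τ z = c (-1 / τ) (fun i => z i / τ) * ee (-(bf A z z / (2 * τ))) := by
  rw [hc.S τ z hτ, mul_comm, ← mul_assoc, ee_neg_mul, one_mul]

lemma Tt_hasSum (hc : JacobiZero A c) (μ : Fin 20 → ℤ) {τ : ℂ} (hτ : 0 < τ.im)
    (y : Fin 20 → ℝ) : HasSum (fun ν => Tt A c μ τ ν y)
      (c τ (fun i => (y i : ℂ)) * ee (-(dn μ (fun i => (y i : ℂ))))) := by
  rw [c_inv hc hτ, bf_cast, mul_assoc]
  exact ((ep_of hc (im_inv_pos hτ)).hasSum (fun i => (y i : ℂ) / τ)).mul_right _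

lemma Tt_cont (μ : Fin 20 → ℤ) (τ : ℂ) (ν : Fin 20 → ℤ) :
    Continuous (Tt A c μ τ ν) := by
  unfold Tt dn bf
  fun_prop

lemma Tt_int (hc : JacobiZero A c) (μ : Fin 20 → ℤ) {τ : ℂ} (hτ : 0 < τ.im) :
    HasSum (fun ν => ∫ y in Icc (0 : Fin 20 → ℝ) 1, Tt A c μ τ ν y) (fc c μ τ) := by
  have hint : ∀ ν, Integrable (Tt A c μ τ ν) (volume.restrict (Icc (0 : Fin 20 → ℝ) 1)) :=
    fun ν => (Tt_cont μ τ ν).continuousOn.integrableOn_compact isCompact_Icc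
  have hK : Continuous (fun y : Fin 20 → ℝ => ee (-(((bf A y y : ℝ) : ℂ) / (2 * τ))) *
      ee (-(dn μ (fun i => (y i : ℂ))))) := by
    unfold dn bf
    fun_prop
  obtain ⟨K, hK'⟩ := (isCompact_Icc (a := (0 : Fin 20 → ℝ)) (b := 1)).exists_bound_of_continuousOn
    hK.continuousOn
  have hK0 : 0 ≤ K := (norm_nonneg _).trans (hK' 0 (by simp))
  set Y : ℝ := ‖τ⁻¹‖ with hY
  have hY0 : 0 ≤ Y := norm_nonneg _
  have hbound : ∀ ν, ∀ y ∈ Icc (0 : Fin 20 → ℝ) 1, ‖Tt A c μ τ ν y‖ ≤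
      ‖mc (c (-1 / τ)) ν‖ * Real.exp (2 * Real.pi * Y * ∑ i, |(ν i : ℝ)|) * K := by
    intro ν y hy
    unfold Tt
    rw [norm_mul, norm_mul]
    refine mul_le_mul ?_ (hK' y hy) (norm_nonneg _) (by positivity)
    refine mul_le_mul_of_nonneg_left (ee_dn_le ν _ fun i => ?_) (norm_nonneg _)
    refine (Complex.abs_im_le_norm _).trans ?_
    rw [div_eq_mul_inv, norm_mul, Complex.norm_real, Real.norm_of_nonneg (hy.1 i)]
    calc y i * ‖τ⁻¹‖ ≤ 1 * ‖τ⁻¹‖ := mul_le_mul_of_nonneg_right (hy.2 i) (norm_nonneg _)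
      _ = Y := one_mul _
  have hvol : (volume : Measure (Fin 20 → ℝ)).real (Icc (0 : Fin 20 → ℝ) 1) = 1 := by
    rw [Measure.real, Real.volume_Icc_pi]
    simp
  have hsum : Summable (fun ν => ∫ y in Icc (0 : Fin 20 → ℝ) 1, ‖Tt A c μ τ ν y‖) := by
    refine Summable.of_nonneg_of_le (fun ν => integral_nonneg fun y => norm_nonneg _) (fun ν => ?_)
      (((ep_of hc (im_inv_pos hτ)).mc_summable hY0).mul_right K)
    have h1 := norm_setIntegral_le_of_norm_le_const (μ := volume) (s := Icc (0 : Fin 20 → ℝ) 1)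
      (f := fun y => ‖Tt A c μ τ ν y‖) (isCompact_Icc.measure_lt_top) (fun y hy => by
        rw [norm_norm]
        exact hbound ν y hy)
    rw [hvol, mul_one] at h1
    exact (le_abs_self _).trans h1
  have h2 := hasSum_integral_of_summable_integral_norm hint hsum
  have h3 : ∫ y in Icc (0 : Fin 20 → ℝ) 1, ∑' ν, Tt A c μ τ ν y = fc c μ τ := by
    rw [fc_mc]
    unfold mc
    refine integral_congr_ae (Eventually.of_forall fun y => ?_)
    exact (Tt_hasSum hc μ hτ y).tsum_eq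
  rw [h3] at h2
  exact h2

lemma mulVec_inj (hA : PosSymm A) : Function.Injective (fun v : Fin 20 → ℤ => A.mulVec v) := by
  intro v v' h
  have h1 := rv_shift hA 0 v
  have h2 := rv_shift hA 0 v'
  simp only at h
  rw [h] at h1
  have h3 := h1.symm.trans h2
  have h4 := add_left_cancel h3
  funext i
  have h5 := congrFun h4 i
  exact_mod_cast h5

/-- decomposition into classes -/
noncomputable def cls (A : Matrix (Fin 20) (Fin 20) ℤ) (R : Finset (Fin 20 → ℤ))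
    (hA : PosSymm A) (hR : IsReps A R) : (R × (Fin 20 → ℤ)) ≃ (Fin 20 → ℤ) :=
  Equiv.ofBijective (fun p => (p.1 : Fin 20 → ℤ) + A.mulVec p.2) (by
    constructor
    · rintro ⟨ρ, v⟩ ⟨ρ', v'⟩ h
      simp only at h
      obtain ⟨σ, hσ, huniq⟩ := hR ((ρ : Fin 20 → ℤ) + A.mulVec v)
      have h1 := huniq (ρ : Fin 20 → ℤ) ⟨ρ.2, v, rfl⟩
      have h2 := huniq (ρ' : Fin 20 → ℤ) ⟨ρ'.2, v', h⟩
      have h3 : ρ = ρ' := Subtype.ext (h1.trans h2.symm)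
      subst h3
      have h4 := add_left_cancel h
      rw [mulVec_inj hA h4]
    · intro μ
      obtain ⟨σ, ⟨hσ, v, hv⟩, -⟩ := hR μ
      exact ⟨(⟨σ, hσ⟩, v), hv.symm⟩)

/-- THETA2 -/
theorem jobTheta2 : JobTheta2 := by
  intro A c R hA hc hR μ τ hτ
  have h1 := Tt_int hc μ hτ
  have h2 := (Equiv.hasSum_iff (cls A R hA hR)).2 h1
  obtain ⟨hGi, hGv⟩ := Gf_gauss hA μ hτ
  have h3 : ∀ ρ : R, HasSum (fun v : Fin 20 → ℤ =>
      ((fun ν => ∫ y in Icc (0 : Fin 20 → ℝ) 1, Tt A c μ τ ν y) ∘ (cls A R hA hR)) (ρ, v))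
      (vf A c ρ (-1 / τ) * ee (-(bd A μ ρ : ℂ)) * ∫ x, Gf A μ τ x) := by
    intro ρ
    have hF : Integrable (fun y : Fin 20 → ℝ => Gf A μ τ (y - rv A ρ)) := hGi.comp_sub_right _
    have h4 := (unfold_box hF).mul_left (vf A c ρ (-1 / τ) * ee (-(bd A μ ρ : ℂ)))
    rw [integral_sub_right_eq_self (fun y => Gf A μ τ y) (rv A ρ)] at h4
    have h5 : (fun v : Fin 20 → ℤ => vf A c ρ (-1 / τ) * ee (-(bd A μ ρ : ℂ)) *
        ∫ y in Icc (0 : Fin 20 → ℝ) 1, Gf A μ τ ((fun i => y i - (v i : ℝ)) - rv A ρ)) =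
        fun v : Fin 20 → ℤ =>
      ((fun ν => ∫ y in Icc (0 : Fin 20 → ℝ) 1, Tt A c μ τ ν y) ∘ (cls A R hA hR)) (ρ, v) := by
      funext v
      show _ = ∫ y in Icc (0 : Fin 20 → ℝ) 1, Tt A c μ τ ((ρ : Fin 20 → ℤ) + A.mulVec v) y
      rw [← integral_const_mul]
      refine integral_congr_ae (Eventually.of_forall fun y => ?_)
      show vf A c ρ (-1 / τ) * ee (-(bd A μ ρ : ℂ)) *
        Gf A μ τ ((fun i => y i - (v i : ℝ)) - rv A ρ) = Tt A c μ τ ((ρ : Fin 20 → ℤ) + A.mulVec v) y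
      rw [Tt_eq hA μ hτ, vf_inv hA hc _ _ (im_inv_pos hτ), rv_shift hA,
        Pool.Agent.Y155.RL.bd_add_right, Pool.Agent.Y155.RL.bd_mulVec_right hA]
      have e1 : ee (-(((bd A μ ρ + ((∑ i, μ i * v i : ℤ) : ℝ) : ℝ)) : ℂ)) =
          ee (-(bd A μ ρ : ℂ)) := by
        have : (-(((bd A μ ρ + ((∑ i, μ i * v i : ℤ) : ℝ) : ℝ)) : ℂ)) =
            -(bd A μ ρ : ℂ) + ((-(∑ i, μ i * v i) : ℤ) : ℂ) := by
          push_cast
          ring
        rw [this, ee_add, ee_int, mul_one]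
      rw [e1]
      congr 2
      funext i
      simp only [Pi.sub_apply, Pi.add_apply]
      ring
    rw [h5] at h4
    exact h4
  have h5 := h2.prod_fiberwise h3
  have h6 := h5.unique (hasSum_fintype _)
  have h7 : vf A c μ τ = ee (-(τ * (bd A μ μ : ℂ) / 2)) * fc c μ τ := rfl
  rw [h7, h6, Finset.mul_sum, Finset.mul_sum, ← Finset.sum_coe_sort R]
  refine Finset.sum_congr rfl fun ρ _ => ?_
  rw [hGv]
  have e := ee_neg_mul (τ * (bd A μ μ : ℂ) / 2)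
  linear_combination (vf A c ρ (-1 / τ) * ee (-(bd A μ ρ : ℂ)) *
    (-(τ ^ 10) / (Real.sqrt (A.det : ℝ) : ℂ))) * e

end Pool.Agent.Y683.RL
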