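import Pool.Agent.Y683.RL.Fou

/-!
Project RL (MP_f1d0b6_nt, owner helper813): periodic functions of several variables.
-/

set_option autoImplicit false

open Complex Filter Topology Set MeasureTheory
open Pool.Agent.Y813.RL

namespace Pool.Agent.Y683.RL

variable {n : ℕ}

/-- the projection onto the torus -/
def pr (y : Fin n → ℝ) : UnitAddTorus (Fin n) := fun i => (y i : UnitAddCircle)

lemma pr_quot : IsOpenQuotientMap (pr (n := n)) := by
  have h : ∀ _ : Fin n, IsOpenQuotientMap (fun x : ℝ => (x : UnitAddCircle)) := fun _ =>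
    QuotientAddGroup.isOpenQuotientMap_mk
  exact IsOpenQuotientMap.piMap h

/-- periodic functions come from the torus -/
theorem exists_lift (H : (Fin n → ℝ) → ℂ) (hc : Continuous H)
    (hp : ∀ (y : Fin n → ℝ) (v : Fin n → ℤ), H (fun i => y i + (v i : ℝ)) = H y) :
    ∃ h : C(UnitAddTorus (Fin n), ℂ), ∀ y, h (pr y) = H y := by
  let prc : C(Fin n → ℝ, UnitAddTorus (Fin n)) := ⟨pr, pr_quot.continuous⟩
  have hq : IsQuotientMap prc := pr_quot.isQuotientMap
  have hfac : Function.FactorsThrough (⟨H, hc⟩ : C(Fin n → ℝ, ℂ)) prc := by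
    intro y y' hyy
    have h1 : ∀ i, ∃ m : ℤ, y i = y' i + m := by
      intro i
      have h2 : ((y i : ℝ) : UnitAddCircle) = ((y' i : ℝ) : UnitAddCircle) := congrFun hyy i
      have h3 : ((y i - y' i : ℝ) : UnitAddCircle) = 0 := by
        rw [AddCircle.coe_sub, h2, sub_self]
      rw [AddCircle.coe_eq_zero_iff] at h3
      obtain ⟨m, hm⟩ := h3
      refine ⟨m, ?_⟩
      rw [zsmul_eq_mul, mul_one] at hm
      linarith
    choose v hv using h1
    show H y = H y'
    rw [← hp y' v]
    congr 1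
    funext i
    exact hv i
  exact ⟨hq.lift ⟨H, hc⟩ hfac, fun y => DFunLike.congr_fun (hq.lift_comp ⟨H, hc⟩ hfac) y⟩

lemma int_box (H : (Fin n → ℝ) → ℂ) (h : C(UnitAddTorus (Fin n), ℂ)) (hh : ∀ y, h (pr y) = H y)
    (a : Fin n → ℝ) : ∫ y in Icc (0 : Fin n → ℝ) 1, H (fun i => y i + a i) =
      ∫ y in {x : Fin n → ℝ | ∀ i, x i ∈ Ioc (a i) (a i + 1)}, h (fun i => (y i : UnitAddCircle)) := by
  have e1 : ∫ y in Icc (0 : Fin n → ℝ) 1, H (fun i => y i + a i) =
      ∫ y in {x : Fin n → ℝ | ∀ i, x i ∈ Ioc (0 : ℝ) 1}, H (fun i => y i + a i) := by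
    refine setIntegral_congr_set ?_
    have h1 : ({x : Fin n → ℝ | ∀ i, x i ∈ Ioc (0 : ℝ) 1}) =
        Set.pi univ fun i => Ioc ((0 : Fin n → ℝ) i) ((1 : Fin n → ℝ) i) := by
      ext x
      simp
    rw [h1]
    exact Measure.univ_pi_Ioc_ae_eq_Icc.symm
  rw [e1]
  have e2 : {x : Fin n → ℝ | ∀ i, x i ∈ Ioc (0 : ℝ) 1} =
      (fun y : Fin n → ℝ => y + a) ⁻¹' {x : Fin n → ℝ | ∀ i, x i ∈ Ioc (a i) (a i + 1)} := by
    ext x
    simp only [Set.mem_ofPred_eq, mem_preimage, mem_Ioc, Pi.add_apply]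
    refine forall_congr' fun i => ?_
    constructor
    · rintro ⟨h1, h2⟩
      constructor <;> linarith
    · rintro ⟨h1, h2⟩
      constructor <;> linarith
  have e3 := (measurePreserving_add_right (volume : Measure (Fin n → ℝ)) a).setIntegral_preimage_emb
    (MeasurableEquiv.addRight a).measurableEmbedding H
    {x : Fin n → ℝ | ∀ i, x i ∈ Ioc (a i) (a i + 1)}
  rw [e2]
  refine Eq.trans ?_ (e3.trans ?_)
  · rfl
  · congr 1
    funext y
    exact (hh y).symm

lemma int_box2 (H : (Fin n → ℝ) → ℂ) (h : C(UnitAddTorus (Fin n), ℂ)) (hh : ∀ y, h (pr y) = H y)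
    (a a' : Fin n → ℝ) : ∫ y in Icc (0 : Fin n → ℝ) 1, H (fun i => y i + a i) =
      ∫ y in Icc (0 : Fin n → ℝ) 1, H (fun i => y i + a' i) := by
  rw [int_box H h hh a, int_box H h hh a']
  exact (UnitAddTorus.integral_preimage (fun x => h x) a).symm.trans
    (UnitAddTorus.integral_preimage (fun x => h x) a')

/-- entire functions invariant under real translations are constant -/
theorem const_of_real {J : (Fin n → ℂ) → ℂ} (hJ : Differentiable ℂ J)
    (hreal : ∀ (w : Fin n → ℂ) (a : Fin n → ℝ), J (w + fun i => (a i : ℂ)) = J w)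
    (w w' : Fin n → ℂ) : J w = J w' := by
  have hfd : ∀ w, fderiv ℂ J w = 0 := by
    intro w
    have h1 : ∀ a : Fin n → ℝ, fderiv ℂ J w (fun i => (a i : ℂ)) = 0 := by
      intro a
      have h2 : HasDerivAt (fun t : ℝ => J (w + (t : ℂ) • fun i => (a i : ℂ)))
          (fderiv ℂ J w (fun i => (a i : ℂ))) 0 := by
        have h3 : HasFDerivAt J (fderiv ℂ J w) (w + ((0 : ℝ) : ℂ) • fun i => (a i : ℂ)) := by
          rw [Complex.ofReal_zero, zero_smul, add_zero]
          exact (hJ w).hasFDerivAt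
        have h4 : HasDerivAt (fun t : ℂ => w + t • fun i => (a i : ℂ)) (fun i => (a i : ℂ))
            ((0 : ℝ) : ℂ) := by
          have := ((hasDerivAt_id ((0 : ℝ) : ℂ)).smul_const (fun i => (a i : ℂ))).const_add w
          simpa using this
        exact (h3.comp_hasDerivAt _ h4).comp_ofReal
      have h5 : (fun t : ℝ => J (w + (t : ℂ) • fun i => (a i : ℂ))) = fun _ => J w := by
        funext t
        rw [← hreal w (fun i => t * a i)]
        congr 1
        funext i
        simp
      rw [h5] at h2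
      exact h2.unique (hasDerivAt_const _ _)
    refine ContinuousLinearMap.ext fun x => ?_
    have h6 : (fun i => ((x i).re : ℂ)) + Complex.I • (fun i => ((x i).im : ℂ)) = x := by
      funext i
      simp only [Pi.add_apply, Pi.smul_apply, smul_eq_mul]
      conv_rhs => rw [← Complex.re_add_im (x i)]
      ring
    have h7 := (fderiv ℂ J w).map_add (fun i => ((x i).re : ℂ))
      (Complex.I • (fun i => ((x i).im : ℂ)))
    rw [h6, (fderiv ℂ J w).map_smul, h1, h1, smul_zero, add_zero] at h7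
    rw [h7]
    rfl
  exact is_const_of_fderiv_eq_zero hJ hfd w w'

/-- shift by complex vectors -/
theorem cshift (g : (Fin n → ℂ) → ℂ) (hg : Differentiable ℂ g)
    (hp : ∀ (z : Fin n → ℂ) (v : Fin n → ℤ), g (fun i => z i + (v i : ℂ)) = g z)
    (w : Fin n → ℂ) : ∫ y in Icc (0 : Fin n → ℝ) 1, g (fun i => w i + (y i : ℂ)) =
      ∫ y in Icc (0 : Fin n → ℝ) 1, g (fun i => (y i : ℂ)) := by
  set I : (Fin n → ℂ) → ℂ := fun w => ∫ y in Icc (0 : Fin n → ℝ) 1, g (fun i => w i + (y i : ℂ))
    with hI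
  have hId : Differentiable ℂ I := by
    rw [← differentiableOn_univ]
    refine differentiableOn_setIntegral (f := fun (w : Fin n → ℂ) (y : Fin n → ℝ) =>
      g (fun i => w i + (y i : ℂ))) volume isCompact_Icc measurableSet_Icc
      (isCompact_Icc.measure_lt_top) isOpen_univ ?_ ?_
    · exact (hg.continuous.comp (by fun_prop)).continuousOn
    · intro y _
      exact (hg.comp (by fun_prop)).differentiableOn
  have hreal : ∀ (w : Fin n → ℂ) (a : Fin n → ℝ), I (w + fun i => (a i : ℂ)) = I w := by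
    intro w a
    obtain ⟨h, hh⟩ := exists_lift (fun y : Fin n → ℝ => g (fun i => w i + (y i : ℂ)))
      (hg.continuous.comp (by fun_prop)) (by
        intro y v
        refine Eq.trans ?_ (hp (fun i => w i + (y i : ℂ)) v)
        congr 1
        funext i
        push_cast
        ring)
    have h1 := int_box2 _ h hh a 0
    simp only [hI]
    have e1 : ∀ y : Fin n → ℝ, g (fun i => (w + fun i => (a i : ℂ)) i + (y i : ℂ)) =
        g (fun i => w i + (((y i + a i : ℝ)) : ℂ)) := by
      intro y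
      congr 1
      funext i
      simp only [Pi.add_apply]
      push_cast
      ring
    simp only [e1]
    rw [h1]
    simp
  have h7 := const_of_real hId hreal w 0
  simp only [hI] at h7 ⊢
  rw [h7]
  simp

/-- summability of products -/
theorem summ_pi (g : ℤ → ℝ) (hg : Summable g) (h0 : ∀ k, 0 ≤ g k) : ∀ n : ℕ,
    Summable (fun μ : Fin n → ℤ => ∏ i, g (μ i)) := by
  intro n
  induction n with
  | zero => exact (hasSum_fintype _).summable
  | succ n ih =>
    have h0' : ∀ μ : Fin n → ℤ, 0 ≤ ∏ i, g (μ i) := fun μ => Finset.prod_nonneg fun i _ => h0 _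
    have h1 : Summable (fun p : ℤ × (Fin n → ℤ) => g p.1 * (fun μ : Fin n → ℤ => ∏ i, g (μ i)) p.2) :=
      Summable.mul_of_nonneg (f := g) (g := fun μ : Fin n → ℤ => ∏ i, g (μ i)) hg ih
        (Pi.le_def.2 h0) (Pi.le_def.2 h0')
    have h2 : (fun μ : Fin (n + 1) → ℤ => ∏ i, g (μ i)) =
        (fun p : ℤ × (Fin n → ℤ) => g p.1 * (fun μ : Fin n → ℤ => ∏ i, g (μ i)) p.2) ∘
          (Fin.consEquiv (fun _ : Fin (n + 1) => ℤ)).symm := by
      funext μ
      rw [Fin.prod_univ_succ]
      rfl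
    rw [h2]
    exact (Equiv.summable_iff (Fin.consEquiv (fun _ : Fin (n + 1) => ℤ)).symm).2 h1

theorem summ_abs {c : ℝ} (hc : 0 < c) (n : ℕ) :
    Summable (fun μ : Fin n → ℤ => Real.exp (-(c * ∑ i, |(μ i : ℝ)|))) := by
  have h1 : Summable (fun k : ℤ => Real.exp (-(c * |(k : ℝ)|))) := by
    have hg : Summable (fun m : ℕ => Real.exp (-c) ^ m) :=
      summable_geometric_of_lt_one (Real.exp_pos _).le (Real.exp_lt_one_iff.2 (by linarith))
    refine Summable.of_nat_of_neg ?_ ?_
    · refine hg.congr fun m => ?_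
      rw [← Real.exp_nat_mul]
      congr 1
      simp
      ring
    · refine hg.congr fun m => ?_
      rw [← Real.exp_nat_mul]
      congr 1
      simp
      ring
  refine (summ_pi _ h1 (fun k => (Real.exp_pos _).le) n).congr fun μ => ?_
  rw [← Real.exp_sum]
  congr 1
  rw [Finset.mul_sum, ← Finset.sum_neg_distrib]

end Pool.Agent.Y683.RL
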