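import Pool.Agent.Y813.RL.Stm

/-!
Job VV of project RL (MP_f1d0b6_nt, owner helper813): vector valued modular forms of negative weight.
-/

set_option autoImplicit false

open Complex Filter Topology Set
open UpperHalfPlane hiding I
open scoped MatrixGroups

namespace Pool.Agent.Y683.RL

/-- the eta function -/
noncomputable def et (z : ℂ) : ℂ := ModularForm.eta z

lemma et24 (τ : ℍ) : et τ ^ 24 = ModularForm.discriminant τ := rfl

lemma et_ne {z : ℂ} (hz : 0 < z.im) : et z ≠ 0 := ModularForm.eta_ne_zero hz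

lemma et_diff {z : ℂ} (hz : 0 < z.im) : DifferentiableAt ℂ et z :=
  ModularForm.differentiableAt_eta_of_mem_upperHalfPlaneSet hz

lemma T_coe (τ : ℍ) : ((ModularGroup.T • τ : ℍ) : ℂ) = (τ : ℂ) + 1 := by
  rw [UpperHalfPlane.specialLinearGroup_apply]
  simp [ModularGroup.T]

lemma S_coe (τ : ℍ) : ((ModularGroup.S • τ : ℍ) : ℂ) = -1 / (τ : ℂ) := by
  rw [UpperHalfPlane.specialLinearGroup_apply]
  simp [ModularGroup.S]

lemma et_T (τ : ℍ) : ‖et ((τ : ℂ) + 1)‖ = ‖et τ‖ := by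
  have h := congrFun ModularForm.discriminant_T_invariant τ
  rw [ModularForm.SL_slash_apply, ← et24, ← et24, T_coe] at h
  have h1 : UpperHalfPlane.denom (ModularGroup.T : GL (Fin 2) ℝ) τ = 1 := by
    rw [ModularGroup.denom_apply]
    simp [ModularGroup.T]
  rw [h1, one_zpow, mul_one] at h
  have h2 := congrArg norm h
  rw [norm_pow, norm_pow] at h2
  exact (pow_left_inj₀ (norm_nonneg _) (norm_nonneg _) (by norm_num)).1 h2

lemma et_S (τ : ℍ) : ‖et (-1 / (τ : ℂ))‖ ^ 2 = ‖(τ : ℂ)‖ * ‖et τ‖ ^ 2 := by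
  have h := congrFun ModularForm.discriminant_S_invariant τ
  rw [ModularForm.SL_slash_apply, ← et24, ← et24, S_coe] at h
  have h1 : UpperHalfPlane.denom (ModularGroup.S : GL (Fin 2) ℝ) τ = τ := by
    rw [ModularGroup.denom_apply]
    simp [ModularGroup.S]
  rw [h1] at h
  have h2 := congrArg norm h
  have hτ : ‖(τ : ℂ)‖ ≠ 0 := norm_ne_zero_iff.2 (UpperHalfPlane.ne_zero τ)
  have hτ0 : 0 < ‖(τ : ℂ)‖ := norm_pos_iff.2 (UpperHalfPlane.ne_zero τ)
  rw [norm_mul, norm_pow, norm_pow, norm_zpow] at h2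
  have h3 : ‖et (-1 / (τ : ℂ))‖ ^ 24 = ‖(τ : ℂ)‖ ^ 12 * ‖et τ‖ ^ 24 := by
    rw [← h2, zpow_neg]
    have : ‖(τ : ℂ)‖ ^ (12 : ℤ) = ‖(τ : ℂ)‖ ^ 12 := by norm_cast
    rw [this]
    field_simp
  have h4 : (‖et (-1 / (τ : ℂ))‖ ^ 2) ^ 12 = (‖(τ : ℂ)‖ * ‖et τ‖ ^ 2) ^ 12 := by
    rw [mul_pow, ← pow_mul, ← pow_mul]
    exact h3
  exact (pow_left_inj₀ (by positivity) (by positivity) (by norm_num)).1 h4

lemma et_bound : ∃ A : ℝ, ∀ τ : ℍ, A ≤ τ.im → ‖et τ‖ ^ 24 ≤ 2 * Real.exp (-2 * Real.pi * τ.im) := by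
  have h := ModularForm.tendsto_atImInfty_tprod_one_sub_eta_q_pow
  have h1 : ∀ᶠ τ : ℍ in atImInfty, ‖∏' (n : ℕ), (1 - ModularForm.eta_q n τ) ^ 24‖ < 2 := by
    have h2 := h.norm
    rw [norm_one] at h2
    exact h2.eventually (gt_mem_nhds (by norm_num))
  rw [atImInfty, eventually_comap, eventually_atTop] at h1
  obtain ⟨A, hA⟩ := h1
  refine ⟨A, fun τ hτ => ?_⟩
  have h2 := hA τ.im hτ τ rfl
  rw [← norm_pow, et24, ModularForm.discriminant_eq_q_prod, norm_mul]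
  have h3 : ‖Function.Periodic.qParam 1 (τ : ℂ)‖ = Real.exp (-2 * Real.pi * τ.im) := by
    simp [Function.Periodic.qParam, Complex.norm_exp]
  rw [h3, mul_comm]
  exact mul_le_mul_of_nonneg_right h2.le (Real.exp_pos _).le

theorem jobVV : Pool.Agent.Y813.RL.JobVV := by
  intro ι _ w κ Ψ hκ hd hT hS ⟨C, hC⟩ τ₀ hτ₀ i₀
  classical
  -- the vector valued function
  set Θ : ℂ → EuclideanSpace ℂ ι := fun z => WithLp.toLp 2 (fun i => et z ^ (2 * w) * Ψ z i) with hΘ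
  have hΘn : ∀ z, ‖Θ z‖ ^ 2 = ‖et z‖ ^ (4 * w) * ∑ i, ‖Ψ z i‖ ^ 2 := by
    intro z
    rw [EuclideanSpace.norm_sq_eq, Finset.mul_sum]
    refine Finset.sum_congr rfl fun i _ => ?_
    simp only [hΘ]
    rw [norm_mul, norm_pow, mul_pow, ← pow_mul]
    congr 2
    ring
  have hUo : IsOpen {z : ℂ | 0 < z.im} := isOpen_lt continuous_const Complex.continuous_im
  have hΘd : DifferentiableOn ℂ Θ {z | 0 < z.im} := by
    have h1 : DifferentiableOn ℂ (fun z => fun i => et z ^ (2 * w) * Ψ z i) {z | 0 < z.im} := by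
      rw [differentiableOn_pi]
      intro i
      refine DifferentiableOn.mul ?_ ?_
      · exact fun z hz => ((et_diff hz).pow _).differentiableWithinAt
      · exact differentiableOn_pi.1 hd i
    exact ((PiLp.continuousLinearEquiv 2 ℂ (fun _ : ι => ℂ)).symm.differentiable).comp_differentiableOn h1
  -- the invariant function
  set F : ℍ → ℝ := fun z => ‖Θ z‖ ^ 2 with hF
  have hF0 : ∀ z, 0 ≤ F z := fun z => by positivity
  have hFT : ∀ z : ℍ, F (ModularGroup.T • z) = F z := by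
    intro z
    simp only [hF]
    rw [T_coe, hΘn, hΘn, et_T, hT _ z.im_pos]
  have hFS : ∀ z : ℍ, F (ModularGroup.S • z) = F z := by
    intro z
    simp only [hF]
    rw [S_coe, hΘn, hΘn, ← hS _ z.im_pos]
    have e : ‖et (-1 / (z : ℂ))‖ ^ (4 * w) = ‖(z : ℂ)‖ ^ (2 * w) * ‖et z‖ ^ (4 * w) := by
      have h1 : 4 * w = 2 * (2 * w) := by ring
      rw [h1, pow_mul, et_S, mul_pow, ← pow_mul]
    rw [e]
    ring
  have hFg : ∀ g : SL(2, ℤ), ∀ z : ℍ, F (g • z) = F z := by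
    intro g
    have hgen : g ∈ Subgroup.closure {ModularGroup.S, ModularGroup.T} := by
      rw [SpecialLinearGroup.SL2Z_generators]
      exact Subgroup.mem_top g
    refine Subgroup.closure_induction (p := fun g _ => ∀ z : ℍ, F (g • z) = F z) ?_ ?_ ?_ ?_ hgen
    · rintro x (rfl | rfl) z
      · exact hFS z
      · exact hFT z
    · intro z
      rw [one_smul]
    · intro x y _ _ hx hy z
      rw [mul_smul, hx, hy]
    · intro x _ hx z
      rw [← hx (x⁻¹ • z), smul_inv_smul]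
  -- decay
  obtain ⟨A, hA⟩ := et_bound
  set δ : ℝ := 4 * Real.pi * (κ + w / 12) with hδ
  have hδ0 : 0 < δ := by
    have := Real.pi_pos
    have h1 : 0 < κ + w / 12 := by linarith
    positivity
  have hdec : ∃ D : ℝ, 0 ≤ D ∧ ∀ z : ℍ, max A (1 / 2) ≤ z.im → F z ≤ D * Real.exp (-(δ * z.im)) := by
    refine ⟨(2 : ℝ) ^ ((w : ℝ) / 6) * (Fintype.card ι * C ^ 2), by positivity, fun z hz => ?_⟩
    have h1 := hA z ((le_max_left _ _).trans hz)
    have h2 : ∀ i, ‖Ψ z i‖ ^ 2 ≤ C ^ 2 * Real.exp (-(4 * Real.pi * κ * z.im)) := by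
      intro i
      have h3 := hC z ((le_max_right _ _).trans hz) i
      have h4 : ‖Ψ z i‖ ^ 2 ≤ (C * Real.exp (-(2 * Real.pi * κ * z.im))) ^ 2 :=
        pow_le_pow_left₀ (norm_nonneg _) h3 2
      refine h4.trans (le_of_eq ?_)
      rw [mul_pow, ← Real.exp_nat_mul]
      congr 2
      push_cast
      ring
    have h3 : ∑ i, ‖Ψ z i‖ ^ 2 ≤ Fintype.card ι * C ^ 2 * Real.exp (-(4 * Real.pi * κ * z.im)) := by
      refine (Finset.sum_le_sum fun i _ => h2 i).trans (le_of_eq ?_)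
      rw [Finset.sum_const, Finset.card_univ, nsmul_eq_mul]
      ring
    have h4 : ‖et z‖ ^ (4 * w) ≤ (2 : ℝ) ^ ((w : ℝ) / 6) *
        Real.exp (-(4 * Real.pi * (w / 12) * z.im)) := by
      have e1 : ‖et z‖ ^ (4 * w) = (‖et z‖ ^ 24) ^ ((w : ℝ) / 6) := by
        rw [← Real.rpow_natCast, ← Real.rpow_natCast, ← Real.rpow_mul (norm_nonneg _)]
        congr 1
        push_cast
        ring
      rw [e1]
      refine (Real.rpow_le_rpow (by positivity) h1 (by positivity)).trans (le_of_eq ?_)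
      rw [Real.mul_rpow (by norm_num) (Real.exp_pos _).le, ← Real.exp_mul]
      congr 2
      ring
    simp only [hF]
    rw [hΘn]
    calc ‖et z‖ ^ (4 * w) * ∑ i, ‖Ψ z i‖ ^ 2 ≤ ((2 : ℝ) ^ ((w : ℝ) / 6) *
          Real.exp (-(4 * Real.pi * (w / 12) * z.im))) * (Fintype.card ι * C ^ 2 *
            Real.exp (-(4 * Real.pi * κ * z.im))) :=
          mul_le_mul h4 h3 (Finset.sum_nonneg fun i _ => by positivity) (by positivity)
      _ = (2 : ℝ) ^ ((w : ℝ) / 6) * (Fintype.card ι * C ^ 2) *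
          (Real.exp (-(4 * Real.pi * (w / 12) * z.im)) *
            Real.exp (-(4 * Real.pi * κ * z.im))) := by ring
      _ = _ := by
        rw [← Real.exp_add]
        congr 2
        rw [hδ]
        ring
  obtain ⟨D, hD, hdec⟩ := hdec
  have hlim : Tendsto (fun y : ℝ => D * Real.exp (-(δ * y))) atTop (𝓝 0) := by
    have h1 : Tendsto (fun y : ℝ => δ * y) atTop atTop := tendsto_id.const_mul_atTop hδ0
    have h2 := (Real.tendsto_exp_neg_atTop_nhds_zero.comp h1).const_mul D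
    rw [mul_zero] at h2
    exact h2
  have hsmall : ∀ ε : ℝ, 0 < ε → ∃ T : ℝ, ∀ z : ℍ, T ≤ z.im → F z < ε := by
    intro ε hε
    obtain ⟨T, hT⟩ := eventually_atTop.1 (hlim.eventually (gt_mem_nhds hε))
    refine ⟨max T (max A (1 / 2)), fun z hz => ?_⟩
    exact (hdec z ((le_max_right _ _).trans hz)).trans_lt (hT _ ((le_max_left _ _).trans hz))
  -- it suffices that F vanishes
  suffices hzero : ∀ z : ℍ, F z = 0 by
    have h1 := hzero ⟨τ₀, hτ₀⟩
    have h2 : ‖et τ₀‖ ^ (4 * w) * ∑ i, ‖Ψ τ₀ i‖ ^ 2 = 0 := by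
      rw [← hΘn]
      exact h1
    have h3 : ∑ i, ‖Ψ τ₀ i‖ ^ 2 = 0 :=
      (mul_eq_zero.1 h2).resolve_left (pow_ne_zero _ (norm_ne_zero_iff.2 (et_ne hτ₀)))
    have h4 := (Finset.sum_eq_zero_iff_of_nonneg (fun i _ => by positivity)).1 h3 i₀
      (Finset.mem_univ _)
    exact norm_eq_zero.1 (pow_eq_zero_iff (two_ne_zero) |>.1 h4)
  by_contra hne
  push Not at hne
  obtain ⟨z₀, hz₀⟩ := hne
  have hz₀p : 0 < F z₀ := lt_of_le_of_ne (hF0 _) (Ne.symm hz₀)
  obtain ⟨T, hTs⟩ := hsmall _ hz₀p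
  -- the compact set
  set K : Set ℂ := (Icc (-(1 / 2 : ℝ)) (1 / 2)) ×ℂ (Icc (1 / 2 : ℝ) (max T 1)) with hK
  have hKc : IsCompact K := isCompact_Icc.reProdIm isCompact_Icc
  have hKsub : K ⊆ {z : ℂ | 0 < z.im} := by
    intro z hz
    have := (Complex.mem_reProdIm.1 hz).2.1
    show 0 < z.im
    linarith
  have hKmem : ∀ z : ℍ, z ∈ ModularGroup.fd → z.im ≤ max T 1 → (z : ℂ) ∈ K := by
    intro z hz hzT
    have h1 := ModularGroup.three_le_four_mul_im_sq_of_mem_fd hz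
    have h2 := hz.2
    have h3 := z.im_pos
    rw [hK, Complex.mem_reProdIm]
    refine ⟨?_, ?_, hzT⟩
    · have h4 : |(z : ℂ).re| ≤ 1 / 2 := h2
      exact abs_le.1 h4
    · have h5 : (1 / 2 : ℝ) ≤ z.im := by nlinarith
      exact h5
  have hcont : ContinuousOn (fun z : ℂ => ‖Θ z‖ ^ 2) K :=
    ((hΘd.continuousOn.mono hKsub).norm).pow 2
  have hfd : ∀ z : ℍ, F z₀ ≤ F z → ∃ z' : ℍ, (z' : ℂ) ∈ K ∧ F z' = F z := by
    intro z hz
    obtain ⟨g, hg⟩ := ModularGroup.exists_smul_mem_fd z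
    refine ⟨g • z, hKmem _ hg ?_, hFg g z⟩
    by_contra h
    push Not at h
    have h1 := hTs (g • z) ((le_max_left T 1).trans h.le)
    rw [hFg] at h1
    linarith
  obtain ⟨z₀', hz₀'K, hz₀'⟩ := hfd z₀ le_rfl
  obtain ⟨c, hcK, hcmax⟩ := hKc.exists_isMaxOn ⟨_, hz₀'K⟩ hcont
  have hcU : 0 < c.im := hKsub hcK
  have hglob : ∀ z : ℍ, F z ≤ ‖Θ c‖ ^ 2 := by
    intro z
    by_cases h : F z₀ ≤ F z
    · obtain ⟨z', hz'K, hz'⟩ := hfd z h
      rw [← hz']
      exact hcmax hz'K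
    · push Not at h
      have h1 : F z₀' ≤ ‖Θ c‖ ^ 2 := hcmax hz₀'K
      linarith
  have hmax : IsMaxOn (norm ∘ Θ) {z : ℂ | 0 < z.im} c := by
    intro z hz
    have h1 : ‖Θ z‖ ^ 2 ≤ ‖Θ c‖ ^ 2 := hglob ⟨z, hz⟩
    exact (pow_le_pow_iff_left₀ (norm_nonneg _) (norm_nonneg _) two_ne_zero).1 h1
  have hconst := Complex.norm_eqOn_of_isPreconnected_of_isMaxOn
    (convex_halfSpace_im_gt 0).isPreconnected hUo hΘd hcU hmax
  have hcpos : 0 < ‖Θ c‖ ^ 2 := by
    have h1 : F z₀' ≤ ‖Θ c‖ ^ 2 := hcmax hz₀'K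
    rw [hz₀'] at h1
    linarith
  obtain ⟨T', hT'⟩ := hsmall _ hcpos
  have him : 0 < (((max T' 1 : ℝ) : ℂ) * Complex.I).im := by
    simp
  have h1 := hT' ⟨((max T' 1 : ℝ) : ℂ) * Complex.I, him⟩ (by
    show T' ≤ (((max T' 1 : ℝ) : ℂ) * Complex.I).im
    simp)
  have h2 := hconst (show ((max T' 1 : ℝ) : ℂ) * Complex.I ∈ {z : ℂ | 0 < z.im} from him)
  simp only [Function.comp_apply, Function.const_apply] at h2
  have h3 : F ⟨((max T' 1 : ℝ) : ℂ) * Complex.I, him⟩ = ‖Θ c‖ ^ 2 := by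
    simp only [hF]
    rw [h2]
  rw [h3] at h1
  exact lt_irrefl _ h1

end Pool.Agent.Y683.RL
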